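import Pool.Agent.Results.MP_41a257_ag.EveryCharacteristic

/-!
The earlier statement in characteristic `2` is the instance `p = 2`.
-/

open MvPolynomial

namespace Pool.Agent.Work.MP_41a257_ag

section reindex

variable {k : Type*} [Field k] {R : Type*} [CommRing R] [Algebra k R]
  {ι ι' : Type*} [Fintype ι] [Fintype ι'] (e : ι' ≃ ι) (b : ι → R)

lemma sum_reindex (c : ι → k) : ∑ i, (c ∘ e) i • (b ∘ e) i = ∑ i, c i • b i :=
  e.sum_comp fun i => c i • b i

lemma hilbChart_reindex : hilbChart k (b ∘ e) = hilbChart k b := by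
  ext I
  refine forall_congr' fun r => ?_
  refine ((Equiv.arrowCongr e.symm (Equiv.refl k)).existsUnique_congr fun c => ?_).symm
  rw [← sum_reindex e b c]
  rfl

lemma coordRing_reindex (E : Set (Ideal R)) : coordRing k (b ∘ e) E = coordRing k b E := by
  unfold coordRing
  congr 1
  ext φ
  constructor
  · rintro ⟨r, c, i, hc, rfl⟩
    refine ⟨r, fun I => c I ∘ e.symm, e i, fun I => ?_, by simp⟩
    rw [← sum_reindex e b]
    simpa using hc I
  · rintro ⟨r, c, i, hc, rfl⟩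
    refine ⟨r, fun I => c I ∘ e, e.symm i, fun I => ?_, by simp⟩
    rw [sum_reindex e b]
    exact hc I

lemma isSmoothPoint_reindex {E E' : Set (Ideal R)} (hE : E' = E) {I : Ideal R} (h : I ∈ E)
    (h' : I ∈ E') : IsSmoothPoint k (b ∘ e) E' ⟨I, h'⟩ ↔ IsSmoothPoint k b E ⟨I, h⟩ := by
  subst hE
  have key : ∀ A B : Subalgebra k (E' → k), A = B →
      (Algebra.IsSmoothAt k ((⊥ : Ideal k).comap
        ((Pi.evalAlgHom k (fun _ : E' => k) ⟨I, h⟩).comp A.val)) ↔
      Algebra.IsSmoothAt k ((⊥ : Ideal k).comap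
        ((Pi.evalAlgHom k (fun _ : E' => k) ⟨I, h⟩).comp B.val))) := by
    rintro A B rfl
    rfl
  exact key _ _ (coordRing_reindex e b E')

end reindex

lemma ideal_two (k : Type*) [Field k] :
    (Ideal.span {X 1 ^ 2 + X 0 ^ (2 ^ 2 + 1)} ⊔ Ideal.span {X 0 ^ 2, X 1} ^ (2 + 1) :
      Ideal (MvPolynomial (Fin 2) k)) = Ideal.span {X 1 ^ 2 + X 0 ^ 5, X 0 ^ 6, X 0 ^ 4 * X 1} := by
  apply le_antisymm
  · obtain ⟨J, hJ⟩ : ∃ J : Ideal (MvPolynomial (Fin 2) k),
      J = Ideal.span {X 1 ^ 2 + X 0 ^ 5, X 0 ^ 6, X 0 ^ 4 * X 1} := ⟨_, rfl⟩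
    have h1 : X 1 ^ 2 + X 0 ^ 5 ∈ J := hJ ▸ Ideal.subset_span (by simp)
    have h2 : X 0 ^ 6 ∈ J := hJ ▸ Ideal.subset_span (by simp)
    have h3 : X 0 ^ 4 * X 1 ∈ J := hJ ▸ Ideal.subset_span (by simp)
    have h4 : X 0 ^ 2 * X 1 ^ 2 ∈ J := by
      convert J.sub_mem (J.mul_mem_left (X 0 ^ 2) h1) (J.mul_mem_left (X 0) h2) using 1
      ring
    have h5 : X 1 ^ 3 ∈ J := by
      convert J.sub_mem (J.mul_mem_left (X 1) h1) (J.mul_mem_left (X 0) h3) using 1
      ring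
    rw [← hJ]
    refine sup_le ((Ideal.span_singleton_le_iff_mem _).mpr h1) ?_
    rw [pow_succ, pow_two, Ideal.mul_le]
    intro r hr s hs
    refine Submodule.mul_induction_on hr (fun u hu v hv => ?_) fun u v hu hv => ?_
    · obtain ⟨a, b, rfl⟩ := Ideal.mem_span_pair.mp hu
      obtain ⟨c, d, rfl⟩ := Ideal.mem_span_pair.mp hv
      obtain ⟨f, g, rfl⟩ := Ideal.mem_span_pair.mp hs
      convert J.add_mem (J.add_mem (J.add_mem (J.mul_mem_left (a * c * f) h2)
        (J.mul_mem_left (a * c * g + a * d * f + b * c * f) h3))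
        (J.mul_mem_left (a * d * g + b * c * g + b * d * f) h4))
        (J.mul_mem_left (b * d * g) h5) using 1
      ring
    · rw [add_mul]
      exact J.add_mem hu hv
  · have h1 : (X 0 ^ 2 : MvPolynomial (Fin 2) k) ∈ Ideal.span {X 0 ^ 2, X 1} :=
      Ideal.subset_span (by simp)
    have h2 : (X 1 : MvPolynomial (Fin 2) k) ∈ Ideal.span {X 0 ^ 2, X 1} :=
      Ideal.subset_span (by simp)
    rw [Ideal.span_le]
    rintro g (rfl | rfl | rfl)
    · exact Ideal.mem_sup_left (Ideal.subset_span rfl)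
    · apply Ideal.mem_sup_right
      convert Ideal.pow_mem_pow h1 (2 + 1) using 1
      ring
    · apply Ideal.mem_sup_right
      rw [pow_succ]
      convert Ideal.mul_mem_mul (Ideal.pow_mem_pow h1 2) h2 using 1
      ring

/-- The earlier statement. -/
theorem old_of_new (k : Type*) [Field k] [IsAlgClosed k] [CharP k 2] :
    ∃ (I₀ : Ideal (MvPolynomial (Fin 2) k)) (b : Fin 10 → MvPolynomial (Fin 2) k)
      (h : I₀ ∈ stratum k (FractionRing (MvPolynomial (Fin 2) k)) I₀ ∩ hilbChart k b),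
      I₀ = Ideal.span {X 1 ^ 2 + X 0 ^ 5, X 0 ^ 6, X 0 ^ 4 * X 1} ∧
      IsComplete I₀ ∧ Module.finrank k (MvPolynomial (Fin 2) k ⧸ I₀) = 10 ∧
      Nat.card (cluster (FractionRing (MvPolynomial (Fin 2) k)) I₀) = 6 ∧
      ¬ IsSmoothPoint k b
        (stratum k (FractionRing (MvPolynomial (Fin 2) k)) I₀ ∩ hilbChart k b) ⟨I₀, h⟩ := by
  obtain ⟨I₀, b, h, h1, -, h2, h3, h4, h5⟩ :=
    Pool.Agent.Results.MP_41a257_ag.EveryCharacteristic.result 2 k
  have hc : Fintype.card (Ix 2) = 10 := by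
    have := card_Ix 2
    omega
  let e : Fin 10 ≃ Ix 2 := (Fintype.equivFinOfCardEq hc).symm
  have hE := congrArg (stratum k (FractionRing (MvPolynomial (Fin 2) k)) I₀ ∩ ·)
    (hilbChart_reindex (k := k) e b)
  refine ⟨I₀, b ∘ e, hE ▸ h, h1.trans (ideal_two k), h2, by omega, h4, ?_⟩
  rwa [isSmoothPoint_reindex e b hE h]

end Pool.Agent.Work.MP_41a257_ag
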