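import Pool.Agent.Work.MP_41a257_ag.Basis
import Mathlib

-- merged part: Pool.Agent.Work.MP_41a257_ag.ShapeGen
section
/-!
The weighted cluster of the ideal `gen p`.
-/

open IsLocalRing MvPolynomial

namespace Pool.Agent.Work.MP_41a257_ag

namespace Par

variable {k : Type*} [Field k] (K : Type*) [Field K] [Algebra k K] [Algebra (P2 k) K] (p : Par k)
variable [IsScalarTower k (P2 k) K] [IsFractionRing (P2 k) K]

lemma W1 : weight p.gen (TL (p.i1 K)) = (2 : ℕ) := by
  refine (p.S1 K).weight_eq _ one_ne_zero ?_ p.f_mem (p.N1 K (c := p.c1 + 1) (by simp))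
  intro y hy
  refine Ord.of_coprime (p.i1 K) 6 ?_ ?_ (hy _ p.f_mem)
  · refine DU.of_poly one_ne_zero 2 (-2 * MvPolynomial.X 1 * (C p.c1 + C p.c2 * MvPolynomial.X 0)
      + MvPolynomial.X 0 * (C p.c1 + C p.c2 * MvPolynomial.X 0) ^ 2 +
      C p.l * MvPolynomial.X 0 ^ 2 * (MvPolynomial.X 1 - C p.c1 * MvPolynomial.X 0 -
        C p.c2 * MvPolynomial.X 0 ^ 2) + C p.c * MvPolynomial.X 0 ^ 4) ?_
    rw [A_f, A_yp]; simp [map_ofNat]; ring
  · simpa [A_Xp] using hy _ p.g_mem

lemma W2 : weight p.gen (TL (p.i2 K)) = (2 : ℕ) := by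
  refine (p.S2 K).weight_eq _ (pow_ne_zero _ (p.X_ne K)) ?_ p.f_mem
    (p.N2 K (c := p.c2 + 1) (by simp))
  intro y hy
  refine Ord.of_coprime (p.i2 K) 4 ?_ ?_ (hy _ p.f_mem)
  · refine DU.of_poly one_ne_zero 2 (-2 * MvPolynomial.X 1 * C p.c2
      + MvPolynomial.X 0 * C p.c2 ^ 2 +
      C p.l * MvPolynomial.X 0 * (MvPolynomial.X 1 - C p.c2 * MvPolynomial.X 0) +
      C p.c * MvPolynomial.X 0 ^ 2) ?_
    rw [f2]; simp [map_ofNat]; ring
  · simpa only [g2] using hy _ p.g_mem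

lemma W3 (h3 : p.c3 ≠ 0) : weight p.gen (TL (p.i3 K)) = (1 : ℕ) := by
  refine (p.S3 K).weight_eq _ (pow_ne_zero _ (p.X_ne K)) ?_ p.f_mem (p.N3 K h3 0)
  intro y hy
  refine Ord.of_coprime (p.i3 K) 2 ?_ ?_ (hy _ p.f_mem)
  · refine DU.of_poly one_ne_zero 2 (C p.l * MvPolynomial.X 1 + C p.c) ?_
    rw [f3]; simp; ring
  · simpa only [g3] using hy _ p.g_mem

lemma W4 (h3 : p.c3 ≠ 0) : weight p.gen (TL (p.i4 K)) = (1 : ℕ) := by
  refine (p.S4 K).weight_eq _ (mul_ne_zero (pow_ne_zero _ (p.X_ne K)) (p.s_ne K)) ?_ p.f_mem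
    (p.N4 K h3 (c := p.c3 + 1) (by simp))
  intro y hy
  have h1 : Ord k (p.s K) (p.Z K) 0 (y * p.Z K ^ 2) := by
    refine Ord.of_coprime (p.i4 K) 1
      (h := (p.X K ^ 4 * p.s K)⁻¹ * algebraMap (P2 k) K p.f) ?_ ?_ ?_
    · refine DU.of_poly (p.c_ne h3) 1 (1 + C p.l * MvPolynomial.X 1) ?_
      rw [f4]; simp; ring
    · have := hy _ p.g_mem
      rw [g4] at this
      convert this using 1
      ring
    · have := (hy _ p.f_mem).mul0 ((Ord.right.pow 2).mono (Nat.zero_le _))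
      convert this using 1
      ring
  refine (Ord.of_coprime (p.i4 K).swap 2 ?_ h1.swap (hy _ p.f_mem).swap).swap
  refine DU.of_poly one_ne_zero 1 (C p.l * MvPolynomial.X 1 + C p.c) ?_
  rw [f4]; simp; ring

lemma W5 (h3 : p.c3 ≠ 0) : weight p.gen (TL (p.i5 K)) = (1 : ℕ) := by
  refine (p.S5 K h3).weight_eq _
    (mul_ne_zero (pow_ne_zero _ (p.X_ne K)) (pow_ne_zero _ (p.s_ne K))) ?_ p.f_mem
    (p.N5 K h3 (c := p.c4 + 1) (by simp))
  intro y hy
  refine Ord.of_coprime (p.i5 K) 2 ?_ ?_ (hy _ p.f_mem)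
  · refine DU.of_poly (p.c_ne h3) 1 (C p.l * (MvPolynomial.X 1 + C p.c3)) ?_
    rw [p.f5 K h3]; simp; ring
  · have hu : TU k (p.s K) (p.U K) ((p.U K + algebraMap k K p.c3) ^ 2) :=
      TU.of_poly ((MvPolynomial.X 1 + C p.c3) ^ 2) (by simp [h3]) (by simp)
    have := (hy _ p.g_mem).mul0 (hu.inv (p.i5 K)).ord
    rw [g5, mul_assoc, mul_assoc, mul_inv_cancel₀ (hu.ne (p.i5 K)), mul_one] at this
    exact this

lemma W6 (h3 : p.c3 ≠ 0) : weight p.gen (TL (p.i6 K)) = (1 : ℕ) := by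
  refine (p.S6 K h3).weight_eq _
    (mul_ne_zero (pow_ne_zero _ (p.X_ne K)) (pow_ne_zero _ (p.s_ne K))) ?_ p.g_mem
    (p.N6 K h3 0)
  intro y hy
  refine Ord.of_coprime (p.i6 K) 1 ?_ ?_ (hy _ p.f_mem)
  · refine DU.of_poly (p.c_ne h3) 1 (C p.l * (MvPolynomial.X 1 + C p.c4)) ?_
    rw [p.f6 K h3]; simp; ring
  · have hu : TU k (p.s K) (p.U1 K)
        ((p.s K * (p.U1 K + algebraMap k K p.c4) + algebraMap k K p.c3) ^ 2) :=
      TU.of_poly ((MvPolynomial.X 0 * (MvPolynomial.X 1 + C p.c4) + C p.c3) ^ 2)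
        (by simp [h3]) (by simp)
    have := (hy _ p.g_mem).mul0 (hu.inv (p.i6 K)).ord
    rw [g6, mul_assoc, mul_assoc, mul_inv_cancel₀ (hu.ne (p.i6 K)), mul_one] at this
    simpa using this

lemma wt_q (h3 : p.c3 ≠ 0) (i : Fin 6) :
    weight p.gen (p.q K i) = ((![2, 2, 1, 1, 1, 1] : Fin 6 → ℕ) i : ℕ) := by
  fin_cases i
  exacts [p.W1 K, p.W2 K, p.W3 K h3, p.W4 K h3, p.W5 K h3, p.W6 K h3]

lemma quad_q (i : Fin 5) : IsQuadTransform (p.q K i.castSucc) (p.q K i.succ) := by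
  fin_cases i
  exacts [quad_child (p.i1 K) p.c1, quad_child (p.i2 K) p.c2, quad_inf (p.i3 K),
    quad_child (p.i4 K) p.c3, quad_child (p.i5 K) p.c4]

lemma prec_of_le {i j : Fin 6} (h : i ≤ j) : Precedes (p.q K i) (p.q K j) := by
  rcases h.eq_or_lt with rfl | h
  · exact Relation.ReflTransGen.refl
  · have : IsTrans (LocalSubring K) Precedes := ⟨fun _ _ _ => Relation.ReflTransGen.trans⟩
    exact (Fin.liftFun_iff_succ Precedes).mpr
      (fun i => Relation.ReflTransGen.single (p.quad_q K i)) h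

lemma q_TL (i : Fin 6) : ∃ (e w : K) (hi : Indep k e w), p.q K i = TL hi := by
  fin_cases i
  exacts [⟨_, _, p.i1 K, rfl⟩, ⟨_, _, p.i2 K, rfl⟩, ⟨_, _, p.i3 K, rfl⟩, ⟨_, _, p.i4 K, rfl⟩,
    ⟨_, _, p.i5 K, rfl⟩, ⟨_, _, p.i6 K, rfl⟩]

lemma prec_q [IsAlgClosed k] (i j : Fin 6) : Precedes (p.q K i) (p.q K j) ↔ i ≤ j := by
  refine ⟨fun h => ?_, p.prec_of_le K⟩
  by_contra hlt
  rw [not_le] at hlt
  obtain ⟨l, rfl⟩ : ∃ l : Fin 5, j = l.castSucc :=
    ⟨⟨j.val, by have := i.2; rw [Fin.lt_def] at hlt; omega⟩, rfl⟩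
  have h1 := (p.prec_of_le K (Fin.castSucc_lt_iff_succ_le.mp hlt)).le.trans h.le
  have h2 := p.quad_q K l
  obtain ⟨e, w, hi, h3⟩ := p.q_TL K l.castSucc
  rw [h3] at h1 h2
  exact not_le_of_quad hi h2 h1

lemma not_sub_25 (h3 : p.c3 ≠ 0) :
    ¬ ((TL (p.i5 K)).toSubring : Set K) ⊆ DV k (p.X K) (p.s K) := by
  intro h
  have hu : TU k (p.s K) (p.U K) (p.U K + algebraMap k K p.c3) :=
    TU.of_poly (MvPolynomial.X 1 + C p.c3) (by simp [h3]) (by simp)
  have h1 : (p.U K + algebraMap k K p.c3)⁻¹ ∈ DV k (p.X K) (p.s K) := h (hu.inv (p.i5 K)).ord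
  apply (DU.right.pow 2).not_div (p.i3 K)
  convert h1 using 1
  rw [U, Z]
  field_simp [p.X_ne K, p.s_ne K]
  simp

lemma sub_comb (R : Fin 6 → Fin 6 → Prop) (y01 : R 0 1) (y12 : R 1 2) (y13 : R 1 3) (y23 : R 2 3)
    (y34 : R 3 4) (y45 : R 4 5) (n0 : ∀ j : Fin 6, 2 ≤ j → ¬ R 0 j)
    (n1 : ∀ j : Fin 6, 4 ≤ j → ¬ R 1 j) (n2 : ∀ j : Fin 6, 4 ≤ j → ¬ R 2 j) (n3 : ¬ R 3 5)
    {i j : Fin 6} (hij : i < j) : R i j ↔ (j.val = i.val + 1 ∨ (i = 1 ∧ j = 3)) := by
  fin_cases i <;> fin_cases j <;> first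
    | exact absurd hij (by decide)
    | exact iff_of_true y01 (by decide)
    | exact iff_of_true y12 (by decide)
    | exact iff_of_true y13 (by decide)
    | exact iff_of_true y23 (by decide)
    | exact iff_of_true y34 (by decide)
    | exact iff_of_true y45 (by decide)
    | exact iff_of_false (n0 _ (by decide)) (by decide)
    | exact iff_of_false (n1 _ (by decide)) (by decide)
    | exact iff_of_false (n2 _ (by decide)) (by decide)
    | exact iff_of_false n3 (by decide)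

lemma sub_iff_q [IsAlgClosed k] (h3 : p.c3 ≠ 0) {i j : Fin 6} (hij : i < j) :
    ((p.q K j).toSubring : Set K) ⊆ orderValRing (p.q K i) ↔
      (j.val = i.val + 1 ∨ (i = 1 ∧ j = 3)) := by
  have hm : ∀ {a b : Fin 6}, a ≤ b → ((p.q K a).toSubring : Set K) ⊆ (p.q K b).toSubring :=
    fun h => (p.prec_of_le K h).le
  have y01 : ((p.q K 1).toSubring : Set K) ⊆ orderValRing (p.q K 0) :=
    fun t ht => (p.V1 K).ge (Ord.mem_DV ht)
  have y12 : ((p.q K 2).toSubring : Set K) ⊆ orderValRing (p.q K 1) :=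
    fun t ht => (p.V2 K).ge (Ord.mem_DV ht)
  have y13 : ((p.q K 3).toSubring : Set K) ⊆ orderValRing (p.q K 1) :=
    fun t ht => (p.V2 K).ge (TL_inf_subset (p.i3 K) ht)
  have y23 : ((p.q K 3).toSubring : Set K) ⊆ orderValRing (p.q K 2) :=
    fun t ht => (p.V3 K).ge (Ord.mem_DV ht)
  have y34 : ((p.q K 4).toSubring : Set K) ⊆ orderValRing (p.q K 3) :=
    fun t ht => (p.V4 K).ge (Ord.mem_DV ht)
  have y45 : ((p.q K 5).toSubring : Set K) ⊆ orderValRing (p.q K 4) :=
    fun t ht => (p.V5 K).ge (Ord.mem_DV ht)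
  have n0 : ∀ j : Fin 6, 2 ≤ j → ¬ ((p.q K j).toSubring : Set K) ⊆ orderValRing (p.q K 0) :=
    fun j hj h => TL_child_not_subset (p.i2 K) p.c2 (((hm hj).trans h).trans (p.V1 K).le)
  have n1 : ∀ j : Fin 6, 4 ≤ j → ¬ ((p.q K j).toSubring : Set K) ⊆ orderValRing (p.q K 1) :=
    fun j hj h => p.not_sub_25 K h3 (((hm hj).trans h).trans (p.V2 K).le)
  have n2 : ∀ j : Fin 6, 4 ≤ j → ¬ ((p.q K j).toSubring : Set K) ⊆ orderValRing (p.q K 2) :=
    fun j hj h => TL_child_not_subset (p.i4 K) p.c3 (((hm hj).trans h).trans (p.V3 K).le)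
  have n3 : ¬ ((p.q K 5).toSubring : Set K) ⊆ orderValRing (p.q K 3) :=
    fun h => TL_child_not_subset (p.i5 K) p.c4 (h.trans (p.V4 K).le)
  exact sub_comb (fun i j => ((p.q K j).toSubring : Set K) ⊆ orderValRing (p.q K i))
    y01 y12 y13 y23 y34 y45 n0 n1 n2 n3 hij

lemma prox_q [IsAlgClosed k] (h3 : p.c3 ≠ 0) (i j : Fin 6) :
    IsProximate (p.q K i) (p.q K j) ↔ (j.val = i.val + 1 ∨ (i = 1 ∧ j = 3)) := by
  by_cases hij : i < j
  · rw [← p.sub_iff_q K h3 hij, IsProximate]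
    refine ⟨fun h => h.2.2, fun h => ⟨p.prec_of_le K hij.le, fun h2 => ?_, h⟩⟩
    have := (p.prec_q K j i).mp (h2 ▸ Relation.ReflTransGen.refl)
    exact absurd hij (not_lt.mpr this)
  · apply iff_of_false
    · rintro ⟨h1, h2, -⟩
      have := le_antisymm ((p.prec_q K i j).mp h1) (not_lt.mp hij)
      exact h2 (this ▸ rfl)
    · rintro (h | ⟨rfl, rfl⟩)
      · rw [Fin.lt_def] at hij; omega
      · exact hij (by decide)

lemma root_q {a b : k} (h : 0 < weight p.gen (TL ((indep_xy k K).shift a b))) :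
    TL ((indep_xy k K).shift a b) = p.q K 0 := by
  have S : SubO k p.gen 1 (xK k K - algebraMap k K a) (yK k K - algebraMap k K b) 0 :=
    fun g _ => by simpa using ord_root a b g
  have ha : a = p.a := by
    by_contra ha
    refine S.not_pos _ p.g_mem ?_ h
    refine TU.of_poly ((MvPolynomial.X 0 + C a - C p.a) ^ 6) (by simp [sub_eq_zero, ha]) ?_
    simp [A_Xp, X]
  subst ha
  have hb : b = p.b := by
    by_contra hb
    refine S.not_pos _ p.f_mem ?_ h
    refine TU.of_poly ((MvPolynomial.X 1 + C b - C p.b - C p.c1 * MvPolynomial.X 0 -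
      C p.c2 * MvPolynomial.X 0 ^ 2) ^ 2 + C p.l * MvPolynomial.X 0 ^ 3 *
        (MvPolynomial.X 1 + C b - C p.b - C p.c1 * MvPolynomial.X 0 -
          C p.c2 * MvPolynomial.X 0 ^ 2) + C p.c * MvPolynomial.X 0 ^ 5)
      (by simp [sub_eq_zero, hb]) ?_
    rw [A_f, A_yp]
    simp [X, Y]
  subst hb
  rfl

lemma step_q [IsAlgClosed k] (h3 : p.c3 ≠ 0) (i : Fin 6) {T : LocalSubring K}
    (hq : IsQuadTransform (p.q K i) T) (h : 0 < weight p.gen T) : ∃ j, p.q K j = T := by
  fin_cases i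
  · rcases quad_cases (p.i1 K) hq with ⟨c, rfl⟩ | rfl
    · by_cases hc : c = p.c1
      · subst hc; exact ⟨1, rfl⟩
      · exact absurd h ((p.S1 K).not_pos_child (p.i1 K) p.f_mem (p.N1 K hc))
    · exact absurd h ((p.S1 K).not_pos_inf (p.i1 K) p.f_mem (p.I1 K))
  · rcases quad_cases (p.i2 K) hq with ⟨c, rfl⟩ | rfl
    · by_cases hc : c = p.c2
      · subst hc; exact ⟨2, rfl⟩
      · exact absurd h ((p.S2 K).not_pos_child (p.i2 K) p.f_mem (p.N2 K hc))
    · exact absurd h ((p.S2 K).not_pos_inf (p.i2 K) p.f_mem (p.I2 K))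
  · rcases quad_cases (p.i3 K) hq with ⟨c, rfl⟩ | rfl
    · exact absurd h ((p.S3 K).not_pos_child (p.i3 K) p.f_mem (p.N3 K h3 c))
    · exact ⟨3, rfl⟩
  · rcases quad_cases (p.i4 K) hq with ⟨c, rfl⟩ | rfl
    · by_cases hc : c = p.c3
      · subst hc; exact ⟨4, rfl⟩
      · exact absurd h ((p.S4 K).not_pos_child (p.i4 K) p.f_mem (p.N4 K h3 hc))
    · exact absurd h ((p.S4 K).not_pos_inf (p.i4 K) p.f_mem (p.I4 K h3))
  · rcases quad_cases (p.i5 K) hq with ⟨c, rfl⟩ | rfl
    · by_cases hc : c = p.c4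
      · subst hc; exact ⟨5, rfl⟩
      · exact absurd h ((p.S5 K h3).not_pos_child (p.i5 K) p.f_mem (p.N5 K h3 hc))
    · exact absurd h ((p.S5 K h3).not_pos_inf (p.i5 K) p.f_mem (p.I5 K h3))
  · rcases quad_cases (p.i6 K) hq with ⟨c, rfl⟩ | rfl
    · exact absurd h ((p.S6 K h3).not_pos_child (p.i6 K) p.g_mem (p.N6 K h3 c))
    · exact absurd h ((p.S6 K h3).not_pos_inf (p.i6 K) p.f_mem (p.I6 K h3))

theorem shape [IsAlgClosed k] (h3 : p.c3 ≠ 0) : Shape K p.gen (p.q K) where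
  clus := by
    intro T
    constructor
    · rintro ⟨⟨n, hn, h1⟩, h2⟩
      induction h1 with
      | refl =>
        obtain ⟨a, b, h⟩ := root_eq n
        rw [h] at h2 ⊢
        exact ⟨0, (p.root_q K h2).symm⟩
      | tail _ h4 ih =>
        obtain ⟨i, rfl⟩ := ih (weight_pos_of_le _ h4.le h2)
        exact p.step_q K h3 i h4 h2
    · rintro ⟨i, rfl⟩
      refine ⟨(isPoint_root p.a p.b).of_precedes (p.prec_of_le K (Fin.zero_le i)), ?_⟩
      rw [p.wt_q K h3]
      fin_cases i <;> simp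
  prec := p.prec_q K
  prox := p.prox_q K h3
  wt := p.wt_q K h3

end Par

end Pool.Agent.Work.MP_41a257_ag
end

-- merged part: Pool.Agent.Work.MP_41a257_ag.Hedge.Rel
section
-- merged part: Pool.Agent.Work.MP_41a257_ag.Obstr
section
/-!
A tangent vector of a Whitney umbrella that does not extend to second order.
-/

open Polynomial

namespace Pool.Agent.Work.MP_41a257_ag

variable (k : Type*) [Field k]

/-- The algebra `k + t ^ 4 k[t]`. -/
def W4 : Subalgebra k k[X] where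
  carrier := {P | X ^ 4 ∣ P - C (P.coeff 0)}
  mul_mem' := by
    intro P Q hP hQ
    simp only [Set.mem_ofPred_eq, mul_coeff_zero, map_mul] at *
    convert dvd_add (hP.mul_right Q) (hQ.mul_left (C (P.coeff 0))) using 1
    ring
  add_mem' := by
    intro P Q hP hQ
    simp only [Set.mem_ofPred_eq, coeff_add, map_add] at *
    convert dvd_add hP hQ using 1
    ring
  algebraMap_mem' := by
    intro c
    simp

variable {k}

lemma X_pow_mem_W4 {n : ℕ} (hn : 4 ≤ n) : (X ^ n : k[X]) ∈ W4 k := by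
  change (X ^ 4 : k[X]) ∣ X ^ n - C ((X ^ n : k[X]).coeff 0)
  rw [coeff_X_pow, if_neg (by omega)]
  simpa using pow_dvd_pow X hn

lemma coeff_six_mul (P Q : W4 k) : (P.1 * Q.1).coeff 6 =
    P.1.coeff 0 * Q.1.coeff 6 + Q.1.coeff 0 * P.1.coeff 6 := by
  have h : X ^ 8 ∣ (P.1 - C (P.1.coeff 0)) * (Q.1 - C (Q.1.coeff 0)) := by
    rw [show 8 = 4 + 4 by rfl, pow_add]
    exact mul_dvd_mul P.2 Q.2
  have h1 := X_pow_dvd_iff.mp h 6 (by norm_num)
  have h2 : P.1 * Q.1 = (P.1 - C (P.1.coeff 0)) * (Q.1 - C (Q.1.coeff 0)) +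
      C (P.1.coeff 0) * Q.1 + C (Q.1.coeff 0) * P.1 - C (P.1.coeff 0 * Q.1.coeff 0) := by
    rw [map_mul]; ring
  rw [h2, coeff_sub, coeff_add, coeff_add, h1, coeff_C_mul, coeff_C_mul, coeff_C]
  simp

private theorem h14_delta4 {R : Type*} [CommRing R] [Algebra k R] (π : k[X] →ₐ[k] R)
    (hπ : ∀ a b, π a = π b ↔ X ^ 2 ∣ a - b) : ∃ δ : W4 k →ₐ[k] R,
    (∀ P, δ P = π (C (P.1.coeff 0) + C (P.1.coeff 6) * X)) ∧
      ∀ P, P.1.coeff 0 ≠ 0 → IsUnit (δ P) := by
  let δ : W4 k →ₐ[k] R :=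
    { toFun := fun P => π (C (P.1.coeff 0) + C (P.1.coeff 6) * X)
      map_one' := by simp [coeff_one]
      map_mul' := by
        intro P Q
        rw [← map_mul, hπ, Subalgebra.coe_mul, coeff_six_mul, mul_coeff_zero]
        refine ⟨-C (P.1.coeff 6 * Q.1.coeff 6), ?_⟩
        simp only [map_add, map_mul]
        ring
      map_zero' := by simp
      map_add' := by
        intro P Q
        rw [← map_add]
        congr 1
        simp only [Subalgebra.coe_add, coeff_add, map_add]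
        ring
      commutes' := by
        intro c
        rw [← π.commutes]
        congr 1
        simp [coeff_C] }
  refine ⟨δ, fun _ => rfl, fun P h0 => ?_⟩
  change IsUnit (π (C (P.1.coeff 0) + C (P.1.coeff 6) * X))
  generalize P.1.coeff 0 = a at h0
  generalize P.1.coeff 6 = b
  refine IsUnit.of_mul_eq_one (π (C a⁻¹ - C (b * a⁻¹ * a⁻¹) * X)) ?_
  rw [← map_mul, ← map_one π, hπ]
  refine ⟨-C (b * b * a⁻¹ * a⁻¹), ?_⟩
  have : (C a * C a⁻¹ : k[X]) = 1 := by rw [← map_mul, mul_inv_cancel₀ h0, map_one]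
  simp only [map_mul]
  linear_combination (1 - C b * C a⁻¹ * X) * this

theorem not_isSmoothAt {A : Type*} [CommRing A] [Algebra k A] (m : Ideal A) [m.IsPrime]
    (ψ : A →ₐ[k] W4 k) (hψ : ∀ φ, φ ∉ m → (ψ φ).1.coeff 0 ≠ 0) (ω l σ : A)
    (hrel : ω ^ 2 = l ^ 2 * σ) (hω : (ψ ω).1 = X ^ 6) (hl : (ψ l).1 = -X ^ 4) :
    ¬ Algebra.IsSmoothAt k m := by
  intro hsm
  let I3 : Ideal k[X] := Ideal.span {X ^ 3}
  let I : Ideal (k[X] ⧸ I3) := (Ideal.span {X ^ 2}).map (Ideal.Quotient.mk I3)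
  have hI : IsNilpotent I := by
    refine ⟨2, ?_⟩
    rw [← Ideal.map_pow, Ideal.zero_eq_bot, Ideal.map_eq_bot_iff_le_ker, Ideal.mk_ker,
      Ideal.span_singleton_pow, Ideal.span_singleton_le_span_singleton, ← pow_mul]
    exact pow_dvd_pow X (by norm_num)
  let π : k[X] →ₐ[k] (k[X] ⧸ I3) ⧸ I := (Ideal.Quotient.mkₐ k I).comp (Ideal.Quotient.mkₐ k I3)
  have hπ : ∀ a b, π a = π b ↔ X ^ 2 ∣ a - b := by
    intro a b
    change Ideal.Quotient.mk I (Ideal.Quotient.mk I3 a) =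
      Ideal.Quotient.mk I (Ideal.Quotient.mk I3 b) ↔ _
    rw [Ideal.Quotient.eq, ← map_sub, Ideal.mem_quotient_iff_mem, Ideal.mem_span_singleton]
    rw [Ideal.span_singleton_le_span_singleton]
    exact pow_dvd_pow X (by norm_num)
  obtain ⟨δ, hδ, hu'⟩ := h14_delta4 (k := k) (R := (k[X] ⧸ I3) ⧸ I) π hπ
  have hu : ∀ y : m.primeCompl, IsUnit ((δ.comp ψ) y) := fun y => hu' _ (hψ y y.2)
  let g : Localization.AtPrime m →ₐ[k] (k[X] ⧸ I3) ⧸ I :=
    IsLocalization.liftAlgHom (A := k) (R := A) (M := m.primeCompl) (S := Localization.AtPrime m)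
      (P := (k[X] ⧸ I3) ⧸ I) (f := δ.comp ψ) hu
  obtain ⟨f, hf⟩ := Algebra.FormallySmooth.exists_lift (R := k) I hI g
  have hf' : ∀ φ : A, Ideal.Quotient.mkₐ k I (f (algebraMap A _ φ)) = δ (ψ φ) := by
    intro φ
    have := congr($hf (algebraMap A _ φ))
    exact this.trans (IsLocalization.lift_eq (M := m.primeCompl) (g := (δ.comp ψ).toRingHom) hu φ)
  obtain ⟨P, hP⟩ := Ideal.Quotient.mk_surjective (f (algebraMap A _ ω))
  obtain ⟨L, hL⟩ := Ideal.Quotient.mk_surjective (f (algebraMap A _ l))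
  obtain ⟨S, hS⟩ := Ideal.Quotient.mk_surjective (f (algebraMap A _ σ))
  have h1 : X ^ 2 ∣ P - X := by
    rw [← hπ]
    have := hf' ω
    rw [← hP, hδ, hω] at this
    exact this.trans (congrArg π (by simp [coeff_X_pow]))
  have h2 : X ^ 2 ∣ L - 0 := by
    rw [← hπ]
    have := hf' l
    rw [← hL, hδ, hl] at this
    exact this.trans (congrArg π (by simp [coeff_X_pow]))
  have h3 : X ^ 3 ∣ P ^ 2 - L ^ 2 * S := by
    rw [← Ideal.mem_span_singleton, ← Ideal.Quotient.eq]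
    have := congr(f (algebraMap A (Localization.AtPrime m) $hrel))
    simpa only [map_mul, map_pow, ← hP, ← hL, ← hS] using this
  obtain ⟨P', hP'⟩ := h1
  obtain ⟨L', hL'⟩ := h2
  obtain ⟨Q, hQ⟩ := h3
  have h4 : (1 + X * P') ^ 2 - X ^ 2 * L' ^ 2 * S = X * Q := by
    apply mul_left_cancel₀ (pow_ne_zero 2 (X_ne_zero (R := k)))
    rw [eq_add_of_sub_eq hP', eq_add_of_sub_eq hL'] at hQ
    linear_combination hQ
  have := congr(eval 0 $h4)
  simp at this

end Pool.Agent.Work.MP_41a257_ag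
end

-- merged part: Pool.Agent.Work.MP_41a257_ag.Main
section
/-!
The one-parameter family and the singular point of the stratum.
-/

open IsLocalRing MvPolynomial

namespace Pool.Agent.Work.MP_41a257_ag

variable {k : Type*} [Field k]

/-- The family of chains. -/
def fam (t : k) : Par k := ⟨t ^ 2, 0, 0, t, -(1 + t ^ 5)⁻¹, t ^ 4 / (1 + t ^ 5) ^ 2⟩

lemma fam_c3 {t : k} (ht : 1 + t ^ 5 ≠ 0) : (fam t).c3 ≠ 0 := by simp [fam, ht]
lemma fam_c (t : k) : (fam t).c = 1 + t ^ 5 := by simp [fam, Par.c]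
lemma fam_l {t : k} (ht : 1 + t ^ 5 ≠ 0) : (fam t).l = t ^ 4 := by
  simp only [fam, Par.l]; field_simp

/-- Evaluation of elements of `W4`. -/
noncomputable def evW (t : k) : W4 k →ₐ[k] k := (Polynomial.aeval t).comp (W4 k).val

noncomputable def tw (n : ℕ) (hn : 4 ≤ n) : W4 k := ⟨Polynomial.X ^ n, X_pow_mem_W4 hn⟩

lemma evW_tw (t : k) (n : ℕ) (hn : 4 ≤ n) : evW t (tw n hn) = t ^ n := by simp [evW, tw]

private lemma h14_map_sum_mb {S : Type*} [CommRing S] (φ : S →+* k) (c : Fin 10 → S) :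
    MvPolynomial.map φ (∑ i, c i • mb S i) = ∑ i, φ (c i) • mb k i := by
  rw [sum_mb, sum_mb]
  simp

lemma map_sum_mb (t : k) (c : Fin 10 → W4 k) :
    MvPolynomial.map (evW t : W4 k →+* k) (∑ i, c i • mb (W4 k) i) =
      ∑ i, evW t (c i) • mb k i := by
  exact h14_map_sum_mb (evW t : W4 k →+* k) c

lemma fam_coord [CharP k 2] (r : P2 k) : ∃ c : Fin 10 → W4 k, ∀ t : k, 1 + t ^ 5 ≠ 0 →
    r - ∑ i, evW t (c i) • mb k i ∈ (fam t).gen := by
  let J : Ideal (MvPolynomial (Fin 2) (W4 k)) :=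
    ⨅ (t : k) (_ : 1 + t ^ 5 ≠ 0), (fam t).gen.comap (MvPolynomial.map (evW t : W4 k →+* k))
  have hJ : ∀ g, g ∈ J ↔ ∀ t : k, 1 + t ^ 5 ≠ 0 →
      MvPolynomial.map (evW t : W4 k →+* k) g ∈ (fam t).gen := by
    intro g; simp [J]
  have h2 : (2 : P2 k) = 0 := CharTwo.two_eq_zero
  obtain ⟨c, hc⟩ := span_mb J
    ⟨![0, tw 8 (by norm_num), 0, 0, 0, 1, tw 10 (by norm_num), tw 8 (by norm_num),
      tw 6 (by norm_num), tw 4 (by norm_num)], by
      rw [hJ]
      intro t ht
      rw [map_sub, map_sum_mb, sum_mb]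
      convert (fam t).f_mem using 1
      simp only [Par.f, Par.yp, Par.Xp, fam_c, fam_l ht]
      simp [fam, evW_tw]
      linear_combination ((1) * C t ^ 5 * X 1 ^ 1 + (-1) * C t ^ 8 * X 0 ^ 1 +
        (-2) * C t ^ 3 * X 0 ^ 1 * X 1 ^ 1 + (-2) * C t ^ 8 * X 0 ^ 1 * X 1 ^ 1 +
        (2) * C t ^ 6 * X 0 ^ 2 + (1) * C t ^ 1 * X 0 ^ 2 * X 1 ^ 1 +
        (1) * C t ^ 6 * X 0 ^ 2 * X 1 ^ 1 + (-3) * C t ^ 4 * X 0 ^ 3 +
        (-1) * C t ^ 4 * X 0 ^ 3 * X 1 ^ 1 + (2) * C t ^ 2 * X 0 ^ 4 + (-1) * X 0 ^ 5) * h2⟩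
    ⟨![tw 12 (by norm_num), 0, tw 8 (by norm_num), 0, tw 4 (by norm_num), 0, 0, 0, 0, 0], by
      rw [hJ]
      intro t ht
      rw [map_sub, map_sum_mb, sum_mb]
      convert (fam t).g_mem using 1
      simp only [Par.Xp]
      simp [fam, evW_tw]
      linear_combination ((-1) * C t ^ 12 + (3) * C t ^ 10 * X 0 ^ 1 + (-8) * C t ^ 8 * X 0 ^ 2 +
        (10) * C t ^ 6 * X 0 ^ 3 + (-8) * C t ^ 4 * X 0 ^ 4 + (3) * C t ^ 2 * X 0 ^ 5) * h2⟩
    ⟨![0, 0, 0, 0, 0, 0, tw 8 (by norm_num), 0, 0, 0], by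
      rw [hJ]
      intro t ht
      rw [map_sub, map_sum_mb, sum_mb]
      convert (fam t).gen.add_mem (fam t).h_mem
        ((fam t).gen.mul_mem_left (C t) (fam t).g_mem) using 1
      simp only [Par.yp, Par.Xp]
      simp [fam, evW_tw]
      linear_combination ((-1) * C t ^ 8 * X 1 ^ 1 + (2) * C t ^ 6 * X 0 ^ 1 * X 1 ^ 1 +
        (-3) * C t ^ 4 * X 0 ^ 2 * X 1 ^ 1 + (2) * C t ^ 2 * X 0 ^ 3 * X 1 ^ 1) * h2⟩
    (MvPolynomial.map (algebraMap k (W4 k)) r)
  refine ⟨c, fun t ht => ?_⟩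
  have := (hJ _).mp hc t ht
  rw [map_sub, map_sum_mb, map_map, AlgHom.comp_algebraMap] at this
  simpa [map_id] using this

lemma finrank_of_chart {R : Type*} [CommRing R] [Algebra k R] {ι : Type*} [Fintype ι]
    {b : ι → R} {I : Ideal R} (h : I ∈ hilbChart k b) :
    Module.finrank k (R ⧸ I) = Fintype.card ι := by
  have hs : ∀ c : ι → k, ∑ i, c i • Ideal.Quotient.mkₐ k I (b i) =
      Ideal.Quotient.mk I (∑ i, c i • b i) := by
    intro c
    rw [← Ideal.Quotient.mkₐ_eq_mk k]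
    simp only [map_sum, map_smul]
  have h1 : LinearIndependent k (fun i => Ideal.Quotient.mkₐ k I (b i)) := by
    rw [Fintype.linearIndependent_iff]
    intro c hc
    rw [hs, Ideal.Quotient.eq_zero_iff_mem] at hc
    have := (h 0).unique (y₁ := c) (y₂ := 0) (by simpa using hc) (by simp)
    exact fun i => congrFun this i
  have h2 : ⊤ ≤ Submodule.span k (Set.range fun i => Ideal.Quotient.mkₐ k I (b i)) := by
    intro y _
    obtain ⟨r, rfl⟩ := Ideal.Quotient.mk_surjective y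
    obtain ⟨c, hc⟩ := (h r).exists
    rw [← Ideal.Quotient.eq, ← hs] at hc
    rw [hc]
    exact Submodule.sum_mem _ fun i _ => Submodule.smul_mem _ _ (Submodule.subset_span ⟨i, rfl⟩)
  exact Module.finrank_eq_card_basis (Module.Basis.mk h1 h2)

variable (K : Type*) [Field K] [Algebra k K] [Algebra (P2 k) K]
  [IsScalarTower k (P2 k) K] [IsFractionRing (P2 k) K]

include K in
lemma fam_chart [CharP k 2] {t : k} (ht : 1 + t ^ 5 ≠ 0) : (fam t).gen ∈ hilbChart k (mb k) := by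
  intro r
  obtain ⟨c, hc⟩ := fam_coord r
  refine ⟨fun i => evW t (c i), hc t ht, fun d hd => ?_⟩
  exact (fam t).coord_unique K (fam_c3 ht) ((fam t).gen_le_J K (fam_c3 ht) hd)
    ((fam t).gen_le_J K (fam_c3 ht) (hc t ht))

lemma fam_gen_eq [CharP k 2] {t : k} (ht : 1 + t ^ 5 ≠ 0) : (fam t).gen = (fam t).J K := by
  refine le_antisymm ((fam t).gen_le_J K (fam_c3 ht)) fun g hg => ?_
  obtain ⟨c, hc⟩ := (fam_chart K ht g).exists
  have := (fam t).coord_unique K (fam_c3 ht) ((fam t).gen_le_J K (fam_c3 ht) hc) (d := 0)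
    (by simpa using hg)
  simpa [this] using hc

lemma one_add_zero_pow : (1 : k) + 0 ^ 5 ≠ 0 := by simp

lemma fam_mem [IsAlgClosed k] [CharP k 2] {t : k} (ht : 1 + t ^ 5 ≠ 0) :
    (fam t).gen ∈ stratum k K (fam (0 : k)).gen ∩ hilbChart k (mb k) := by
  refine ⟨⟨?_, ?_, ?_⟩, fam_chart K ht⟩
  · rw [fam_gen_eq K ht]; exact Par.J_complete K _
  · rw [finrank_of_chart (fam_chart K ht), finrank_of_chart (fam_chart K one_add_zero_pow)]
  · exact ((fam 0).shape K (fam_c3 one_add_zero_pow)).equisingular ((fam t).shape K (fam_c3 ht))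

lemma fam_zero_gen : (fam (0 : k)).gen =
    Ideal.span {X 1 ^ 2 + X 0 ^ 5, X 0 ^ 6, X 0 ^ 4 * X 1} := by
  simp only [Par.gen, Par.f, Par.yp, Par.Xp, fam_c, fam_l (one_add_zero_pow (k := k))]
  simp [fam]

theorem not_smooth [IsAlgClosed k] [CharP k 2] :
    ¬ IsSmoothPoint k (mb k) (stratum k K (fam (0 : k)).gen ∩ hilbChart k (mb k))
      ⟨(fam 0).gen, fam_mem K one_add_zero_pow⟩ := by
  set E := stratum k K (fam (0 : k)).gen ∩ hilbChart k (mb k) with hE
  let T := {t : k // 1 + t ^ 5 ≠ 0}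
  let γ : T → E := fun t => ⟨(fam t.1).gen, fam_mem K t.2⟩
  let res : (E → k) →ₐ[k] (T → k) := AlgHom.pi fun t => Pi.evalAlgHom k (fun _ : E => k) (γ t)
  let ew : W4 k →ₐ[k] (T → k) := AlgHom.pi fun t => evW t.1
  have hinf : Set.Infinite {t : k | 1 + t ^ 5 ≠ 0} := by
    have h1 : (1 + Polynomial.X ^ 5 : Polynomial k) ≠ 0 := by
      intro h
      simpa using congr(Polynomial.eval 0 $h)
    have := (Polynomial.finite_setOfPred_isRoot h1).infinite_compl
    convert this using 1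
    ext t
    simp
  have hew : ∀ (P : W4 k) (Q : Polynomial k), (∀ t : T, evW t.1 P = Q.eval t.1) → P.1 = Q := by
    intro P Q h
    apply Polynomial.eq_of_infinite_eval_eq
    refine hinf.mono fun t ht => ?_
    simpa [evW] using h ⟨t, ht⟩
  have hinj : Function.Injective ew := by
    intro P Q h
    apply Subtype.ext
    apply hew
    intro t
    simpa [ew, evW] using congrFun h t
  have hle : coordRing k (mb k) E ≤ ew.range.comap res := by
    apply Algebra.adjoin_le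
    rintro _ ⟨r, c, i, hc, rfl⟩
    obtain ⟨d, hd⟩ := fam_coord r
    refine ⟨d i, ?_⟩
    funext t
    have := ((fam_chart K t.2) r).unique (hd t.1 t.2) (hc (γ t))
    exact congrFun this i
  let ψ : coordRing k (mb k) E →ₐ[k] W4 k := (AlgEquiv.ofInjective ew hinj).symm.toAlgHom.comp
    ((res.comp (coordRing k (mb k) E).val).codRestrict ew.range fun φ => hle φ.2)
  have hψ : ∀ (φ : coordRing k (mb k) E) (t : T), evW t.1 (ψ φ) = φ.1 (γ t) := by
    intro φ t
    have h1 : ew (ψ φ) = res φ.1 := by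
      have := (AlgEquiv.ofInjective ew hinj).apply_symm_apply
        (((res.comp (coordRing k (mb k) E).val).codRestrict ew.range fun φ => hle φ.2) φ)
      exact congr(($this).1)
    exact congrFun h1 t
  choose cf hcf using fun (r : P2 k) (I : E) => (I.2.2 r).exists
  let co : P2 k → Fin 10 → coordRing k (mb k) E := fun r i =>
    ⟨fun I => cf r I i, Algebra.subset_adjoin ⟨r, cf r, i, hcf r, rfl⟩⟩
  have h2 : (2 : k) = 0 := CharTwo.two_eq_zero
  refine not_isSmoothAt _ ψ ?_ (co (X 1 ^ 2) 8) (co (X 1 ^ 2) 9) (co (X 0 ^ 6) 4) ?_ ?_ ?_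
  · intro φ hφ h0
    apply hφ
    rw [Ideal.mem_comap, Ideal.mem_bot]
    have := hψ φ ⟨0, one_add_zero_pow⟩
    rw [Polynomial.coeff_zero_eq_eval_zero] at h0
    simp only [evW, AlgHom.comp_apply, Subalgebra.coe_val, Polynomial.coe_aeval_eq_eval, h0] at this
    exact this.symm
  · apply Subtype.ext
    funext I
    change cf (X 1 ^ 2) I 8 ^ 2 = cf (X 1 ^ 2) I 9 ^ 2 * cf (X 0 ^ 6) I 4
    obtain ⟨q, hq⟩ := ((fam 0).shape K (fam_c3 one_add_zero_pow)).of_equisingular I.2.1.2.2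
    obtain ⟨p, hp, hI⟩ := upper hq fun p => p.not_vertical K (hcf (X 1 ^ 2) I)
    obtain ⟨h9, h8⟩ := p.coord_y K hp (hI (hcf (X 1 ^ 2) I))
    rw [h9, h8, p.coord_x K hp (hI (hcf (X 0 ^ 6) I))]
    linear_combination (2 * p.c2 ^ 2 + 6 * p.a * p.l * p.c2 + 12 * p.a ^ 2 * p.l ^ 2) * h2
  · apply hew
    intro t
    rw [hψ]
    change cf (X 1 ^ 2) (γ t) 8 = _
    rw [((fam t.1).coord_y K (fam_c3 t.2)
      ((fam t.1).gen_le_J K (fam_c3 t.2) (hcf (X 1 ^ 2) (γ t)))).2, fam_l t.2]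
    simp only [fam, Polynomial.eval_pow, Polynomial.eval_X]
    linear_combination (t.1 + t.1 ^ 6) * h2
  · apply hew
    intro t
    rw [hψ]
    change cf (X 1 ^ 2) (γ t) 9 = _
    rw [((fam t.1).coord_y K (fam_c3 t.2)
      ((fam t.1).gen_le_J K (fam_c3 t.2) (hcf (X 1 ^ 2) (γ t)))).1, fam_l t.2]
    simp

end Pool.Agent.Work.MP_41a257_ag
end

-- merged part: Pool.Agent.Work.MP_41a257_ag.Hedge.Gen
section
/-!
Clusters that are chains of arbitrary length, chains of free points, valuation ideals.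
-/

open IsLocalRing MvPolynomial

namespace Pool.Agent.Work.MP_41a257_ag

section general

variable {R : Type*} [CommRing R] {K : Type*} [Field K] [Algebra R K]

variable (K) in
structure GShape (n : ℕ) (P : ℕ → ℕ → Prop) (w : ℕ → ℕ) (I : Ideal R)
    (q : ℕ → LocalSubring K) : Prop where
  clus : ∀ T, T ∈ cluster K I ↔ ∃ i, i < n ∧ q i = T
  prec : ∀ i j, i < n → j < n → (Precedes (q i) (q j) ↔ i ≤ j)
  prox : ∀ i j, i < n → j < n → (IsProximate (q i) (q j) ↔ P i j)
  wt : ∀ i, i < n → weight I (q i) = (w i : ℕ)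

variable {n : ℕ} {P : ℕ → ℕ → Prop} {w : ℕ → ℕ} {I J : Ideal R} {q q' : ℕ → LocalSubring K}

lemma GShape.inj (h : GShape K n P w I q) {i j : ℕ} (hi : i < n) (hj : j < n)
    (hij : q i = q j) : i = j := by
  apply le_antisymm
  · rw [← h.prec i j hi hj, hij]; exact Relation.ReflTransGen.refl
  · rw [← h.prec j i hj hi, hij]; exact Relation.ReflTransGen.refl

noncomputable def GShape.equiv (h : GShape K n P w I q) : Fin n ≃ cluster K I :=
  Equiv.ofBijective (fun i => ⟨q i, (h.clus _).mpr ⟨i, i.2, rfl⟩⟩)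
    ⟨fun i j hij => Fin.ext (h.inj i.2 j.2 congr(($hij).1)), fun T => by
      obtain ⟨i, hi, hq⟩ := (h.clus T).mp T.2
      exact ⟨⟨i, hi⟩, Subtype.ext hq⟩⟩

lemma GShape.equiv_apply (h : GShape K n P w I q) (i : Fin n) : (h.equiv i).1 = q i := rfl

lemma GShape.equisingular (h : GShape K n P w I q) (h' : GShape K n P w J q') :
    Equisingular K I J := by
  refine ⟨h.equiv.symm.trans h'.equiv, ?_, ?_, ?_⟩
  · intro p r
    obtain ⟨i, rfl⟩ := h.equiv.surjective p
    obtain ⟨j, rfl⟩ := h.equiv.surjective r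
    simp only [Equiv.trans_apply, Equiv.symm_apply_apply, GShape.equiv_apply,
      h.prec _ _ i.2 j.2, h'.prec _ _ i.2 j.2]
  · intro p r
    obtain ⟨i, rfl⟩ := h.equiv.surjective p
    obtain ⟨j, rfl⟩ := h.equiv.surjective r
    simp only [Equiv.trans_apply, Equiv.symm_apply_apply, GShape.equiv_apply,
      h.prox _ _ i.2 j.2, h'.prox _ _ i.2 j.2]
  · intro p
    obtain ⟨i, rfl⟩ := h.equiv.surjective p
    simp only [Equiv.trans_apply, Equiv.symm_apply_apply, GShape.equiv_apply,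
      h.wt _ i.2, h'.wt _ i.2]

lemma GShape.of_equisingular (h : GShape K n P w I q) (hIJ : Equisingular K I J) :
    ∃ q', GShape K n P w J q' := by
  obtain ⟨e, h1, h2, h3⟩ := hIJ
  refine ⟨fun i => if hi : i < n then (e (h.equiv ⟨i, hi⟩)).1 else q i, ?_, ?_, ?_, ?_⟩
  · intro T
    constructor
    · intro hT
      obtain ⟨i, hi⟩ := h.equiv.surjective (e.symm ⟨T, hT⟩)
      refine ⟨i, i.2, ?_⟩
      rw [dif_pos i.2, Fin.eta, hi]
      simp
    · rintro ⟨i, hi, rfl⟩
      rw [dif_pos hi]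
      exact (e (h.equiv ⟨i, hi⟩)).2
  · intro i j hi hj
    rw [dif_pos hi, dif_pos hj, ← h1, h.equiv_apply, h.equiv_apply, h.prec _ _ hi hj]
  · intro i j hi hj
    rw [dif_pos hi, dif_pos hj, ← h2, h.equiv_apply, h.equiv_apply, h.prox _ _ hi hj]
  · intro i hi
    rw [dif_pos hi, ← h3, h.equiv_apply, h.wt _ hi]

lemma GShape.sub_iff (h : GShape K n P w I q) {i j : ℕ} (hij : i < j) (hj : j < n) :
    ((q j).toSubring : Set K) ⊆ orderValRing (q i) ↔ P i j := by
  have hi := hij.trans hj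
  rw [← h.prox i j hi hj, IsProximate]
  exact ⟨fun h' => ⟨(h.prec i j hi hj).mpr hij.le, fun h2 => hij.ne (h.inj hi hj h2), h'⟩,
    fun h' => h'.2.2⟩

variable {k : Type*} [Field k] [Algebra k K]

lemma GShape.wtGe (h : GShape K n P w I q) {i : ℕ} (hi : i < n) {e u : K} {hu : Indep k e u}
    (hq : q i = TL hu) {ν : ℕ} (hν : ν ≤ w i) : WtGe k I e u ν := by
  rw [← le_weight_TL I hu, ← hq, h.wt i hi]
  exact_mod_cast hν

end general

section plane

variable {k : Type*} [Field k] {K : Type*} [Field K] [Algebra k K] [Algebra (P2 k) K]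
  [IsScalarTower k (P2 k) K] [IsFractionRing (P2 k) K] [IsAlgClosed k]
variable {n : ℕ} {P : ℕ → ℕ → Prop} {w : ℕ → ℕ} {I : Ideal (P2 k)} {q : ℕ → LocalSubring K}

lemma GShape.root (h : GShape K n P w I q) (hn : 0 < n) :
    ∃ a b : k, q 0 = TL ((indep_xy k K).shift a b) := by
  obtain ⟨⟨m, hm, h1⟩, h2⟩ := (h.clus _).mpr ⟨0, hn, rfl⟩
  obtain ⟨i, hi, hq⟩ := (h.clus _).mp ⟨⟨m, hm, Relation.ReflTransGen.refl⟩,
    weight_pos_of_le I h1.le h2⟩
  rw [← hq, h.prec _ _ hi hn] at h1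
  have : i = 0 := by omega
  subst this
  rw [hq]
  exact root_eq m

lemma GShape.quad (h : GShape K n P w I q) {i : ℕ} (hi : i + 1 < n) :
    IsQuadTransform (q i) (q (i + 1)) := by
  have hi0 : i < n := by omega
  have h1 : Precedes (q i) (q (i + 1)) := (h.prec _ _ hi0 hi).mpr (by omega)
  obtain ⟨hp, -⟩ := (h.clus _).mpr ⟨i, hi0, rfl⟩
  obtain ⟨-, hw⟩ := (h.clus _).mpr ⟨i + 1, hi, rfl⟩
  rcases Relation.ReflTransGen.cases_tail h1 with h2 | ⟨T, h2, h3⟩
  · have := h.inj hi hi0 h2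
    omega
  · have hT := hp.of_precedes h2
    obtain ⟨l, hl, rfl⟩ := (h.clus _).mp ⟨hT, weight_pos_of_le I h3.le hw⟩
    have h4 := (h.prec _ _ hi0 hl).mp h2
    have h5 := (h.prec _ _ hl hi).mp (Relation.ReflTransGen.single h3)
    by_cases hli : l = i + 1
    · subst hli
      obtain ⟨e, w, hi, h6⟩ := hT.exists_TL
      rw [h6] at h3
      exact absurd le_rfl (not_le_of_quad hi h3)
    · have : l = i := by omega
      exact this ▸ h3

end plane

section chain

variable {k : Type*} [Field k] {K : Type*} [Field K] [Algebra k K]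

/-- Second coordinates along a chain of points in the chart of the first coordinate. -/
noncomputable def ch (e w : K) (c : ℕ → k) : ℕ → K
  | 0 => w
  | i + 1 => ch e w c i / e - algebraMap k K (c i)

variable {e w : K}

@[simp] lemma ch_zero (c : ℕ → k) : ch e w c 0 = w := rfl
lemma ch_succ (c : ℕ → k) (i : ℕ) : ch e w c (i + 1) = ch e w c i / e - algebraMap k K (c i) := rfl

lemma Indep.ch (hi : Indep k e w) (c : ℕ → k) : ∀ i, Indep k e (ch e w c i)
  | 0 => hi
  | i + 1 => (Indep.ch hi c i).child (c i)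

lemma ch_congr {c c' : ℕ → k} : ∀ i, (∀ j, j < i → c j = c' j) → ch e w c i = ch e w c' i
  | 0, _ => rfl
  | i + 1, h => by
    rw [ch_succ, ch_succ, ch_congr i fun j hj => h j (by omega), h i (by omega)]

lemma ch_eq_mul (he : e ≠ 0) (c : ℕ → k) (i : ℕ) :
    ch e w c i = e * (ch e w c (i + 1) + algebraMap k K (c i)) := eq_child he _

lemma ch_closed (he : e ≠ 0) (c : ℕ → k) (i : ℕ) :
    w = ∑ j ∈ Finset.range i, algebraMap k K (c j) * e ^ (j + 1) + e ^ i * ch e w c i := by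
  induction i with
  | zero => simp
  | succ i ih =>
    rw [Finset.sum_range_succ, add_assoc]
    conv_lhs => rw [ih, ch_eq_mul he c i]
    congr 1
    ring

lemma ch_of_zero (he : e ≠ 0) {c : ℕ → k} {i : ℕ} (h : ∀ j, j < i → c j = 0) :
    ch e w c i = w / e ^ i := by
  have h1 := ch_closed (w := w) he c i
  rw [Finset.sum_eq_zero fun j hj => by simp [h j (Finset.mem_range.mp hj)], zero_add] at h1
  rw [eq_div_iff (pow_ne_zero _ he), mul_comm, ← h1]

lemma ch_ord (he : e ≠ 0) (c : ℕ → k) (d j : ℕ) :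
    Ord k e (ch e w c (j + d)) 1 (ch e w c j) := by
  induction d generalizing j with
  | zero => exact Ord.right
  | succ d ih =>
    have h1 := ih (j + 1)
    rw [show j + 1 + d = j + (d + 1) by omega] at h1
    have h2 := Ord.left.mul0' ((h1.mono zero_le_one).add (Ord.const (c j)))
    rwa [← ch_eq_mul he c j] at h2

lemma quad_ch (hi : Indep k e w) (c : ℕ → k) (i : ℕ) :
    IsQuadTransform (TL (hi.ch c i)) (TL (hi.ch c (i + 1))) := quad_child (hi.ch c i) (c i)

lemma val_ch (hi : Indep k e w) (c : ℕ → k) (i : ℕ) :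
    orderValRing (TL (hi.ch c i)) = DV k e (ch e w c (i + 1)) := by
  rw [orderValRing_TL, ch_succ, DV_shift]

lemma chain_exists [IsAlgClosed k] (hi : Indep k e w) (T : ℕ → LocalSubring K) (N : ℕ)
    (h0 : T 0 = TL hi) (hq : ∀ i, i < N → IsQuadTransform (T i) (T (i + 1)))
    (h1 : 0 < N → T 1 ≠ TL hi.swap.div)
    (hp : ∀ i, i + 2 ≤ N → ¬ ((T (i + 2)).toSubring : Set K) ⊆ orderValRing (T i)) :
    ∃ c : ℕ → k, ∀ i, i ≤ N → T i = TL (hi.ch c i) := by
  induction N with
  | zero =>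
    refine ⟨0, fun i hi' => ?_⟩
    obtain rfl : i = 0 := by omega
    exact h0
  | succ N ih =>
    obtain ⟨c, hc⟩ := ih (fun i h => hq i (by omega)) (fun _ => h1 (by omega))
      (fun i h => hp i (by omega))
    have h2 := hq N (by omega)
    rw [hc N le_rfl] at h2
    rcases quad_cases (hi.ch c N) h2 with ⟨d, hd⟩ | hd
    · refine ⟨Function.update c N d, fun i hi' => ?_⟩
      have h3 : ∀ j, j ≤ N → ch e w c j = ch e w (Function.update c N d) j := fun j hj =>
        ch_congr j fun l hl => by rw [Function.update_of_ne (by omega)]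
      rcases Nat.lt_or_ge i (N + 1) with h4 | h4
      · rw [hc i (by omega)]
        exact TL_congr _ _ rfl (h3 i (by omega))
      · obtain rfl : i = N + 1 := by omega
        rw [hd]
        refine TL_congr _ _ rfl ?_
        rw [ch_succ, ← h3 N le_rfl, Function.update_self]
    · exfalso
      rcases N with _ | N
      · exact h1 (by omega) hd
      · apply hp N le_rfl
        rw [hc N (by omega), val_ch hi, hd]
        exact TL_inf_subset (hi.ch c (N + 1))

variable {R : Type*} [CommRing R] [Algebra R K] {I : Ideal R} {μ : K}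

lemma SubO.chain (h : SubO k I μ e w 0) (he : e ≠ 0) (c : ℕ → k) (ν N : ℕ)
    (hw : ∀ i, i < N → WtGe k I e (ch e w c i) ν) :
    SubO k I (μ * e ^ (ν * N)) e (ch e w c N) 0 := by
  induction N with
  | zero => simpa using h
  | succ N ih =>
    have h1 := ((ih fun i hi => hw i (by omega)).of_wtGe (hw N (by omega))).child he (c N)
    rw [mul_assoc, ← pow_add] at h1
    exact h1

lemma SubO.sup {J : Ideal R} {n : ℕ} (h1 : SubO k I μ e w n) (h2 : SubO k J μ e w n) :
    SubO k (I ⊔ J) μ e w n := by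
  intro g hg
  obtain ⟨a, ha, b, hb, rfl⟩ := Submodule.mem_sup.mp hg
  rw [map_add, mul_add]
  exact (h1 a ha).add (h2 b hb)

lemma SubO.pow {n : ℕ} (hR : ∀ r : R, Ord k e w 0 (algebraMap R K r))
    (h : SubO k I μ e w n) (m : ℕ) : SubO k (I ^ m) (μ ^ m) e w (n * m) := by
  induction m with
  | zero => intro g _; simpa using hR g
  | succ m ih =>
    intro g hg
    rw [pow_succ] at hg
    refine Submodule.mul_induction_on hg ?_ ?_
    · intro a ha b hb
      have h1 := (ih a ha).mul (h b hb)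
      rw [Nat.mul_succ, map_mul, pow_succ, mul_inv, mul_mul_mul_comm]
      exact h1
    · intro a b ha hb
      rw [map_add, mul_add (μ ^ (m + 1))⁻¹]
      exact ha.add hb

/-- The valuation ideal of elements of value at least `N`. -/
def VI (hR : ∀ r : R, algebraMap R K r ∈ DV k e w) (N : ℕ) : Ideal R where
  carrier := {g | algebraMap R K g / e ^ N ∈ DV k e w}
  add_mem' := by
    intro a b ha hb
    simp only [Set.mem_ofPred_eq, map_add, add_div] at *
    exact add_mem ha hb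
  zero_mem' := by simp
  smul_mem' := by
    intro r a ha
    simp only [Set.mem_ofPred_eq, smul_eq_mul, map_mul, mul_div_assoc] at *
    exact mul_mem (hR r) ha

lemma mem_VI (hR : ∀ r : R, algebraMap R K r ∈ DV k e w) (N : ℕ) (g : R) :
    g ∈ VI hR N ↔ algebraMap R K g / e ^ N ∈ DV k e w := Iff.rfl

lemma mem_VI_pow (hR : ∀ r : R, algebraMap R K r ∈ DV k e w) (N : ℕ) {g : R} {j : ℕ}
    (hg : g ∈ VI hR N ^ j) : algebraMap R K g / e ^ (N * j) ∈ DV k e w := by
  induction j generalizing g with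
  | zero => simpa using hR g
  | succ j ih =>
    rw [pow_succ] at hg
    refine Submodule.mul_induction_on hg ?_ ?_
    · intro a ha b hb
      have h1 := mul_mem (ih ha) ((mem_VI hR N b).mp hb)
      rw [map_mul, Nat.mul_succ, pow_add, ← div_mul_div_comm]
      exact h1
    · intro a b ha hb
      rw [map_add, add_div]
      exact add_mem ha hb

lemma VI_complete (hi : Indep k e w) (hR : ∀ r : R, algebraMap R K r ∈ DV k e w) (N : ℕ) :
    IsComplete (VI hR N) := by
  intro x P hP hc h0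
  have hs := hi.left_ne
  rw [mem_VI]
  by_cases hx0 : algebraMap R K x = 0
  · simp [hx0]
  obtain ⟨m, y, hy, hxy⟩ := exists_DU hi (hR x) hx0
  by_cases hm : N ≤ m
  · obtain ⟨d, rfl⟩ := Nat.exists_eq_add_of_le hm
    have : algebraMap R K x / e ^ N = y * e ^ d := by
      rw [hxy]; field_simp; ring
    rw [this]
    exact mul_mem hy.mem (pow_mem (DV_left _ _) d)
  exfalso
  obtain ⟨d, hd⟩ := Nat.exists_eq_add_of_lt (not_le.mp hm)
  rw [Polynomial.eval_eq_sum_range, Finset.sum_range_succ, hP.coeff_natDegree, one_mul] at h0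
  have h1 := congr(algebraMap R K $h0)
  simp only [map_add, map_sum, map_mul, map_pow, map_zero, hxy] at h1
  apply (hy.pow P.natDegree).not_div hi
  have h2 : y ^ P.natDegree / e = -∑ i ∈ Finset.range P.natDegree,
      algebraMap R K (P.coeff i) * (y * e ^ m) ^ i / (e ^ (m * P.natDegree) * e) := by
    rw [← Finset.sum_div, eq_neg_of_add_eq_zero_left h1, mul_pow, ← pow_mul]
    field_simp
  rw [h2]
  refine neg_mem (sum_mem fun i hi' => ?_)
  obtain ⟨j, hj⟩ := Nat.exists_eq_add_of_lt (Finset.mem_range.mp hi')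
  have h3 := mem_VI_pow hR N (hc i)
  rw [hj, show i + j + 1 - i = j + 1 by omega, hd] at h3
  convert mul_mem (mul_mem h3 (pow_mem hy.mem i)) (pow_mem (DV_left _ _) (d * j + d + j)) using 1
  rw [hj]
  field_simp
  ring

/-- Terms of pairwise different values cannot cancel. -/
lemma le_of_sum_mem_DV (hi : Indep k e w) {ι : Type*} [Fintype ι] (n : ι → ℕ)
    (hn : Function.Injective n) {N : ℕ} (y : ι → K) (hy : ∀ i, y i = 0 ∨ DU k e w (y i))
    (h : (∑ i, y i * e ^ n i) / e ^ N ∈ DV k e w) (i : ι) (hi0 : y i ≠ 0) : N ≤ n i := by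
  classical
  obtain ⟨i0, hi0', hmin⟩ := Finset.exists_min_image (Finset.univ.filter fun i => y i ≠ 0) n
    ⟨i, by simpa using hi0⟩
  have hd : y i0 ≠ 0 := by simpa using hi0'
  refine le_trans ?_ (hmin i (by simpa using hi0))
  by_contra hlt
  have ht : ∑ i ∈ Finset.univ.erase i0, y i * e ^ (n i - n i0 - 1) ∈ DV k e w := by
    refine sum_mem fun i _ => mul_mem ?_ (pow_mem (DV_left _ _) _)
    rcases hy i with h0 | h0
    · rw [h0]; exact zero_mem _
    · exact h0.mem
  have hu := ((hy i0).resolve_left hd).add ht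
  apply hu.not_div_pow hi (not_le.mp hlt)
  convert h using 2
  rw [← Finset.add_sum_erase _ _ (Finset.mem_univ i0), add_mul, Finset.mul_sum, Finset.sum_mul]
  congr 1
  refine Finset.sum_congr rfl fun i hi => ?_
  by_cases h0 : y i = 0
  · simp [h0]
  · have h1 := hmin i (by simpa using h0)
    have h2 : n i ≠ n i0 := fun h => (Finset.mem_erase.mp hi).1 (hn h)
    obtain ⟨m, hm⟩ : ∃ m, n i = n i0 + m + 1 := ⟨n i - n i0 - 1, by omega⟩
    rw [hm, show n i0 + m + 1 - n i0 - 1 = m by omega]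
    ring

end chain

end Pool.Agent.Work.MP_41a257_ag
end

-- merged part: Pool.Agent.Work.MP_41a257_ag.Hedge.Pts
section
/-!
The chain of `p ^ 2 + p` points, its proximities, and the valuation ideal of the last point.
-/

open IsLocalRing MvPolynomial

namespace Pool.Agent.Work.MP_41a257_ag

/-- Parameters of a chain. -/
structure GP (k : Type*) where
  a : k
  b : k
  c : ℕ → k
  e : ℕ → k

/-- Proximity relation of the chain. -/
def Px (p i j : ℕ) : Prop := j = i + 1 ∨ (i + 1 = p ∧ p < j ∧ j < 2 * p)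

/-- Weights of the chain. -/
def Wx (p i : ℕ) : ℕ := if i < p then p else 1

namespace GP

variable {k : Type*} [Field k] (K : Type*) [Field K] [Algebra k K] [Algebra (P2 k) K]
  (p : ℕ) (P : GP k)

noncomputable def X : K := xK k K - algebraMap k K P.a
noncomputable def Y : K := yK k K - algebraMap k K P.b
noncomputable def Yc (i : ℕ) : K := ch (P.X K) (P.Y K) P.c i
noncomputable def s : K := P.Yc K p
noncomputable def Z (t : ℕ) : K := ch (P.s K p) (P.X K) P.e t

def Valid : Prop := (∀ j, j + 1 < p → P.e j = 0) ∧ P.e (p - 1) ≠ 0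

variable [IsScalarTower k (P2 k) K] [IsFractionRing (P2 k) K]

lemma i0 : Indep k (P.X K) (P.Y K) := (indep_xy k K).shift P.a P.b
lemma iA (i : ℕ) : Indep k (P.X K) (P.Yc K i) := (P.i0 K).ch P.c i
lemma iS : Indep k (P.s K p) (P.X K) := (P.iA K p).swap
lemma iB (t : ℕ) : Indep k (P.s K p) (P.Z K p t) := (P.iS K p).ch P.e t

lemma X_ne : P.X K ≠ 0 := (P.i0 K).left_ne
lemma s_ne : P.s K p ≠ 0 := (P.iS K p).left_ne

/-- The points. -/
noncomputable def q (i : ℕ) : LocalSubring K :=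
  if i ≤ p then TL (P.iA K i) else TL (P.iB K p (i - p))

lemma qA {i : ℕ} (hi : i ≤ p) : P.q K p i = TL (P.iA K i) := if_pos hi

lemma qB (t : ℕ) : P.q K p (p + t) = TL (P.iB K p t) := by
  rcases t with _ | t
  · rw [Nat.add_zero, P.qA K p le_rfl]
    exact TL_swap _
  · rw [q, if_neg (by omega)]
    exact TL_congr _ _ rfl (by rw [Nat.add_sub_cancel_left])

lemma quad_q (i : ℕ) : IsQuadTransform (P.q K p i) (P.q K p (i + 1)) := by
  rcases Nat.lt_or_ge i p with h | h
  · rw [P.qA K p h.le, P.qA K p h]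
    exact quad_ch (P.i0 K) P.c i
  · obtain ⟨t, rfl⟩ := Nat.exists_eq_add_of_le h
    rw [add_assoc, qB, qB]
    exact quad_ch (P.iS K p) P.e t

lemma prec_of_le {i j : ℕ} (h : i ≤ j) : Precedes (P.q K p i) (P.q K p j) := by
  induction h with
  | refl => exact Relation.ReflTransGen.refl
  | step _ ih => exact ih.tail (P.quad_q K p _)

lemma q_TL (i : ℕ) : ∃ (e w : K) (hi : Indep k e w), P.q K p i = TL hi := by
  unfold q
  split_ifs
  exacts [⟨_, _, P.iA K i, rfl⟩, ⟨_, _, P.iB K p (i - p), rfl⟩]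

lemma prec_q [IsAlgClosed k] (i j : ℕ) : Precedes (P.q K p i) (P.q K p j) ↔ i ≤ j := by
  refine ⟨fun h => ?_, P.prec_of_le K p⟩
  by_contra hlt
  have h1 := (P.prec_of_le K p (show j + 1 ≤ i by omega)).le.trans h.le
  have h2 := P.quad_q K p j
  obtain ⟨e, w, hi, h3⟩ := P.q_TL K p j
  rw [h3] at h1 h2
  exact not_le_of_quad hi h2 h1

omit [IsFractionRing (P2 k) K] in
lemma r0 (r : P2 k) : Ord k (P.X K) (P.Y K) 0 (algebraMap (P2 k) K r) := ord_root P.a P.b r

lemma rq (i : ℕ) (r : P2 k) : algebraMap (P2 k) K r ∈ (P.q K p i).toSubring := by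
  apply (P.prec_of_le K p (Nat.zero_le i)).le
  rw [P.qA K p (Nat.zero_le p)]
  exact P.r0 K r

lemma rA {i : ℕ} (r : P2 k) : Ord k (P.X K) (P.Yc K i) 0 (algebraMap (P2 k) K r) := by
  have := P.rq K i i r
  rwa [P.qA K i le_rfl] at this

lemma rB {t : ℕ} (r : P2 k) : Ord k (P.s K p) (P.Z K p t) 0 (algebraMap (P2 k) K r) := by
  have := P.rq K p (p + t) r
  rwa [P.qB K p] at this

lemma VA {i : ℕ} (hi : i ≤ p) : orderValRing (P.q K p i) = DV k (P.X K) (P.Yc K (i + 1)) := by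
  rw [P.qA K p hi]; exact val_ch (P.i0 K) P.c i

lemma VB (t : ℕ) : orderValRing (P.q K p (p + t)) = DV k (P.s K p) (P.Z K p (t + 1)) := by
  rw [P.qB K p]; exact val_ch (P.iS K p) P.e t

lemma Z_of_zero {t : ℕ} (h : ∀ j, j < t → P.e j = 0) : P.Z K p t = P.X K / P.s K p ^ t :=
  ch_of_zero (P.s_ne K p) h

lemma Z_succ_of_zero {t : ℕ} (h : ∀ j, j < t → P.e j = 0) :
    P.Z K p (t + 1) = P.X K / P.s K p ^ (t + 1) - algebraMap k K (P.e t) := by
  rw [Z, ch_succ, ← Z, P.Z_of_zero K p h, pow_succ, div_div]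

lemma sub_of_zero {t : ℕ} (h : ∀ j, j < t → P.e j = 0) :
    ((TL (P.iB K p t)).toSubring : Set K) ⊆ DV k (P.X K) (P.s K p) := by
  intro z hz
  refine Ord.mem_DV' (P.iA K p) ?_ hz
  have : P.Z K p t / P.X K = (P.s K p)⁻¹ ^ t := by
    rw [P.Z_of_zero K p h, inv_pow]
    field_simp [P.X_ne K, P.s_ne K p]
  rw [this]
  exact ((DU.right.inv (P.iA K p)).pow t).mem

lemma not_sub_of_ne {t : ℕ} (h : ∀ j, j < t → P.e j = 0) (ht : P.e t ≠ 0) :
    ¬ ((TL (P.iB K p (t + 1))).toSubring : Set K) ⊆ DV k (P.X K) (P.s K p) := by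
  intro hs
  have hu : TU k (P.s K p) (P.Z K p (t + 1)) (P.X K / P.s K p ^ (t + 1)) := by
    refine TU.of_poly (MvPolynomial.X 1 + C (P.e t)) (by simp [ht]) ?_
    rw [P.Z_succ_of_zero K p h]; simp
  have h1 : (P.X K / P.s K p ^ (t + 1))⁻¹ ∈ DV k (P.X K) (P.s K p) :=
    hs (hu.inv (P.iB K p (t + 1))).ord
  rw [inv_div] at h1
  exact (DU.right.pow (t + 1)).not_div (P.iA K p) h1

variable {p}

lemma sub_iff_q (hp : 2 ≤ p) (hv : P.Valid p) {i j : ℕ} (hij : i < j) :
    ((P.q K p j).toSubring : Set K) ⊆ orderValRing (P.q K p i) ↔ Px p i j := by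
  have hm : ∀ {a b : ℕ}, a ≤ b → ((P.q K p a).toSubring : Set K) ⊆ (P.q K p b).toSubring :=
    fun h => (P.prec_of_le K p h).le
  constructor
  · intro h
    by_contra hn
    rw [Px, not_or] at hn
    have h2 : i + 2 ≤ j := by omega
    rcases lt_trichotomy (i + 1) p with h3 | h3 | h3
    · have h4 := (hm h2).trans h
      rw [P.VA K p (by omega), P.qA K p (by omega)] at h4
      exact TL_child_not_subset (P.iA K (i + 1)) (P.c (i + 1)) h4
    · have h4 := (hm (show p + (p - 1 + 1) ≤ j by omega)).trans h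
      rw [P.VA K p (by omega), P.qB K p, h3] at h4
      exact P.not_sub_of_ne K p (fun l hl => hv.1 l (by omega)) hv.2 h4
    · obtain ⟨t, rfl⟩ := Nat.exists_eq_add_of_le (show p ≤ i by omega)
      have h4 := (hm h2).trans h
      rw [P.VB K p, add_assoc, P.qB K p] at h4
      exact TL_child_not_subset (P.iB K p (t + 1)) (P.e (t + 1)) h4
  · rintro (rfl | ⟨h1, h2, h3⟩)
    · rcases Nat.lt_or_ge i p with h | h
      · rw [P.VA K p h.le, P.qA K p h]
        exact fun z hz => Ord.mem_DV hz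
      · obtain ⟨t, rfl⟩ := Nat.exists_eq_add_of_le h
        rw [P.VB K p, add_assoc, P.qB K p]
        exact fun z hz => Ord.mem_DV hz
    · obtain ⟨t, rfl⟩ := Nat.exists_eq_add_of_le h2.le
      rw [P.VA K p (by omega), P.qB K p, h1]
      exact P.sub_of_zero K p fun l hl => hv.1 l (by omega)

lemma prox_q [IsAlgClosed k] (hp : 2 ≤ p) (hv : P.Valid p) (i j : ℕ) :
    IsProximate (P.q K p i) (P.q K p j) ↔ Px p i j := by
  by_cases hij : i < j
  · rw [← P.sub_iff_q K hp hv hij, IsProximate]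
    refine ⟨fun h => h.2.2, fun h => ⟨P.prec_of_le K p hij.le, fun h2 => ?_, h⟩⟩
    have := (P.prec_q K p j i).mp (h2 ▸ Relation.ReflTransGen.refl)
    omega
  · apply iff_of_false
    · rintro ⟨h1, h2, -⟩
      have := le_antisymm ((P.prec_q K p i j).mp h1) (not_lt.mp hij)
      exact h2 (this ▸ rfl)
    · rintro (h | ⟨h1, h2, -⟩) <;> omega

/-- `X / s ^ p` is a unit at all later points. -/
lemma v_TU (hp : 2 ≤ p) (hv : P.Valid p) {t : ℕ} (ht : p ≤ t) :
    TU k (P.s K p) (P.Z K p t) (P.X K / P.s K p ^ p) := by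
  obtain ⟨d, rfl⟩ := Nat.exists_eq_add_of_le ht
  have h1 := (TU.const hv.2).add_ord (ch_ord (w := P.X K) (P.s_ne K p) P.e d p)
  have h2 := P.Z_succ_of_zero K p (t := p - 1) fun l hl => hv.1 l (by omega)
  rw [show p - 1 + 1 = p by omega, Z] at h2
  rw [h2, add_sub_cancel] at h1
  exact h1

variable (p) in
lemma rD (r : P2 k) : algebraMap (P2 k) K r ∈ DV k (P.s K p) (P.Z K p (p * p)) :=
  (P.rB K p r).mem_DV

variable (p) in
/-- The valuation ideal of the last point. -/
noncomputable def J : Ideal (P2 k) := VI (P.rD K p) (p * (p * p + p))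

lemma v_DU (hp : 2 ≤ p) (hv : P.Valid p) :
    DU k (P.s K p) (P.Z K p (p * p)) (P.X K / P.s K p ^ p) :=
  (P.v_TU K hp hv (Nat.le_mul_self p)).du

lemma le_J (hp : 2 ≤ p) (hv : P.Valid p) {I : Ideal (P2 k)}
    (h : SubO k I (P.X K ^ (p * p) * P.s K p ^ (p * p)) (P.s K p) (P.Z K p (p * p)) 0) :
    I ≤ P.J K p := by
  intro g hg
  have hs := P.s_ne K p
  have hX := P.X_ne K
  have h1 := mul_mem (h g hg).mem_DV ((P.v_DU K hp hv).pow (p * p)).mem
  rw [J, mem_VI]
  convert h1 using 1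
  rw [div_pow, ← pow_mul, mul_add, pow_add]
  field_simp

end GP

variable {k : Type*} [Field k] {K : Type*} [Field K] [Algebra k K] [Algebra (P2 k) K]
  [IsScalarTower k (P2 k) K] [IsFractionRing (P2 k) K]

theorem gupper [IsAlgClosed k] {p : ℕ} (hp : 2 ≤ p) {I : Ideal (P2 k)} {q : ℕ → LocalSubring K}
    (h : GShape K (p + p * p) (Px p) (Wx p) I q)
    (hv : ∀ P : GP k, ¬ SubO k I (P.Y K ^ p) (P.Y K) (P.X K / P.Y K) 1) :
    ∃ P : GP k, P.Valid p ∧ I ≤ P.J K p := by
  have hpp : 2 * p ≤ p * p := Nat.mul_le_mul_right p hp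
  obtain ⟨a, b, h0⟩ := h.root (by omega)
  let P0 : GP k := ⟨a, b, 0, 0⟩
  replace h0 : q 0 = TL (P0.i0 K) := h0
  have S0 : SubO k I 1 (P0.X K) (P0.Y K) 0 := fun g _ => by simpa using P0.r0 K g
  obtain ⟨c, hc⟩ := chain_exists (P0.i0 K) q p h0 (fun i hi => h.quad (by omega)) (by
      intro _ h1
      apply hv P0
      have S1 : SubO k I 1 (P0.X K) (P0.Y K) p :=
        S0.of_wtGe (h.wtGe (by omega) h0 (by rw [Wx, if_pos (by omega)]))
      have := (S1.inf (P0.i0 K).right_ne).of_wtGe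
        (h.wtGe (ν := 1) (by omega) h1 (by rw [Wx, if_pos (by omega)]; omega))
      simpa using this) (by
      intro i hi hs
      rw [h.sub_iff (by omega) (by omega)] at hs
      rcases hs with h1 | ⟨h1, h2, -⟩ <;> omega)
  let P1 : GP k := ⟨a, b, c, 0⟩
  replace hc : ∀ i, i ≤ p → q i = TL (P1.iA K i) := hc
  have hV : orderValRing (q (p - 1)) = DV k (P1.X K) (P1.s K p) := by
    rw [hc (p - 1) (by omega)]
    have := val_ch (P1.i0 K) c (p - 1)
    rw [show p - 1 + 1 = p by omega] at this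
    exact this
  obtain ⟨e, he⟩ := chain_exists (P1.iS K p) (fun t => q (p + t)) (p * p - 1)
    ((hc p le_rfl).trans (TL_swap _)) (fun i hi => h.quad (i := p + i) (by omega)) (by
      intro _ h1
      have h2 := (h.sub_iff (i := p - 1) (j := p + 1) (by omega) (by omega)).mpr
        (Or.inr ⟨by omega, by omega, by omega⟩)
      rw [hV, h1] at h2
      refine TL_child_not_subset (P1.iA K p) 0 ?_
      rwa [TL_congr ((P1.iA K p).child 0) (P1.iS K p).swap.div rfl (by simp [GP.s])]) (by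
      intro i hi hs
      rw [h.sub_iff (by omega) (by omega)] at hs
      rcases hs with h1 | ⟨h1, h2, -⟩ <;> omega)
  let P : GP k := ⟨a, b, c, e⟩
  replace hc : ∀ i, i ≤ p → q i = TL (P.iA K i) := hc
  replace he : ∀ t, t ≤ p * p - 1 → q (p + t) = TL (P.iB K p t) := he
  replace hV : orderValRing (q (p - 1)) = DV k (P.X K) (P.s K p) := hV
  have hz : ∀ j, j + 1 < p → P.e j = 0 := by
    intro j
    induction j using Nat.strong_induction_on with
    | _ j ih =>
      intro hj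
      by_contra hne
      have h2 := (h.sub_iff (i := p - 1) (j := p + (j + 1)) (by omega) (by omega)).mpr
        (Or.inr ⟨by omega, by omega, by omega⟩)
      rw [hV, he (j + 1) (by omega)] at h2
      exact P.not_sub_of_ne K p (fun l hl => ih l hl (by omega)) hne h2
  have hval : P.Valid p := by
    refine ⟨hz, fun h0 => ?_⟩
    have h1 : ∀ j, j < p → P.e j = 0 := by
      intro j hj
      rcases Nat.lt_or_ge (j + 1) p with h2 | h2
      · exact hz j h2
      · rwa [show j = p - 1 by omega]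
    have h2 := P.sub_of_zero K p h1
    by_cases h3 : p ≤ p * p - 1
    · rw [← hV, ← he p h3, h.sub_iff (by omega) (by omega)] at h2
      rcases h2 with h4 | ⟨-, -, h4⟩ <;> omega
    · omega
  refine ⟨P, hval, P.le_J K hp hval ?_⟩
  replace S0 : SubO k I 1 (P.X K) (P.Y K) 0 := S0
  have SA := S0.chain (P.X_ne K) c p p fun i hi =>
    h.wtGe (by omega) (hc i hi.le) (by rw [Wx, if_pos hi])
  have SB := SA.swap.chain (P.s_ne K p) e 1 (p * p) fun t ht =>
    h.wtGe (by omega) (he t (by omega)) (by rw [Wx, if_neg (by omega)])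
  rw [one_mul, one_mul] at SB
  exact SB

end Pool.Agent.Work.MP_41a257_ag
end

-- merged part: Pool.Agent.Work.MP_41a257_ag.Hedge.Bas
section
/-!
Polynomials in `y` over `S[x]`, the monomial basis, and spanning.
-/

open Polynomial

namespace Pool.Agent.Work.MP_41a257_ag

/-- Index set of the monomials `x ^ α y ^ β`, `β < p`, `α < p (p + 1 - β)`. -/
abbrev Ix (p : ℕ) : Type := (β : Fin p) × Fin (p * (p + 1 - β))

section base

variable (S : Type*) [CommRing S] (p : ℕ)

/-- The monomials. -/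
noncomputable def gb (i : Ix p) : MvPolynomial (Fin 2) S :=
  MvPolynomial.X 0 ^ (i.2 : ℕ) * MvPolynomial.X 1 ^ (i.1 : ℕ)

noncomputable def tx : S[X] →ₐ[S] MvPolynomial (Fin 2) S := aeval (MvPolynomial.X 0)

noncomputable def tp : S[X][X] →ₐ[S] MvPolynomial (Fin 2) S :=
  aevalTower (tx S) (MvPolynomial.X 1)

variable {S p}

@[simp] lemma tx_X : tx S X = MvPolynomial.X 0 := by simp [tx]
@[simp] lemma tx_C (c : S) : tx S (C c) = MvPolynomial.C c := by simp [tx]
@[simp] lemma tp_X : tp S X = MvPolynomial.X 1 := by simp [tp]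
@[simp] lemma tp_C (f : S[X]) : tp S (C f) = tx S f := by simp [tp]

lemma tp_surj (r : MvPolynomial (Fin 2) S) : ∃ H, tp S H = r := by
  induction r using MvPolynomial.induction_on with
  | C c => exact ⟨C (C c), by simp⟩
  | add a b ha hb =>
    obtain ⟨A, rfl⟩ := ha
    obtain ⟨B, rfl⟩ := hb
    exact ⟨A + B, map_add _ _ _⟩
  | mul_X a i ha =>
    obtain ⟨A, rfl⟩ := ha
    fin_cases i
    · exact ⟨A * C X, by simp⟩
    · exact ⟨A * X, by simp⟩

noncomputable def ga (c : Ix p → S) (β : Fin p) : S[X] :=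
  ∑ α : Fin (p * (p + 1 - β)), monomial (α : ℕ) (c ⟨β, α⟩)

noncomputable def Hc (c : Ix p → S) : S[X][X] := ∑ β : Fin p, monomial (β : ℕ) (ga c β)

lemma tp_Hc (c : Ix p → S) : tp S (Hc c) = ∑ i, c i • gb S p i := by
  rw [Hc, map_sum, Fintype.sum_sigma]
  refine Finset.sum_congr rfl fun β _ => ?_
  rw [← C_mul_X_pow_eq_monomial, map_mul, map_pow, tp_C, tp_X, ga, map_sum, Finset.sum_mul]
  refine Finset.sum_congr rfl fun α _ => ?_
  rw [← C_mul_X_pow_eq_monomial, map_mul, map_pow, tx_C, tx_X, gb, MvPolynomial.smul_eq_C_mul,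
    mul_assoc]

lemma coeff_fin_sum {A : Type*} [Semiring A] {n : ℕ} (d : Fin n → A) (i : Fin n) :
    (∑ j : Fin n, monomial (j : ℕ) (d j)).coeff i = d i := by
  rw [finsetSum_coeff, Finset.sum_eq_single i]
  · simp
  · intro j _ hj
    rw [coeff_monomial, if_neg fun h => hj (Fin.ext h)]
  · simp

lemma coeff_fin_sum_ge {A : Type*} [Semiring A] {n : ℕ} (d : Fin n → A) {i : ℕ} (hi : n ≤ i) :
    (∑ j : Fin n, monomial (j : ℕ) (d j)).coeff i = 0 := by
  rw [finsetSum_coeff]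
  refine Finset.sum_eq_zero fun j _ => ?_
  rw [coeff_monomial, if_neg (by have := j.2; omega)]

lemma coeff_Hc (c : Ix p → S) (β : Fin p) : (Hc c).coeff β = ga c β := coeff_fin_sum _ β
lemma coeff_Hc_ge (c : Ix p → S) {β : ℕ} (h : p ≤ β) : (Hc c).coeff β = 0 := coeff_fin_sum_ge _ h
lemma coeff_ga (c : Ix p → S) (β : Fin p) (α : Fin (p * (p + 1 - β))) :
    (ga c β).coeff α = c ⟨β, α⟩ := coeff_fin_sum (fun α => c ⟨β, α⟩) α
lemma coeff_ga_ge (c : Ix p → S) (β : Fin p) {α : ℕ} (h : p * (p + 1 - β) ≤ α) :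
    (ga c β).coeff α = 0 := coeff_fin_sum_ge (fun α => c ⟨β, α⟩) h

variable (p) in
/-- Polynomials supported on the monomials. -/
def Small (H : S[X][X]) : Prop :=
  (∀ β, p ≤ β → H.coeff β = 0) ∧ ∀ β α, β < p → p * (p + 1 - β) ≤ α → (H.coeff β).coeff α = 0

lemma small_Hc (c : Ix p → S) : Small p (Hc c) :=
  ⟨fun _ h => coeff_Hc_ge c h, fun β _ hβ h => by
    have := coeff_Hc c ⟨β, hβ⟩
    rw [show (Hc c).coeff β = _ from this]
    exact coeff_ga_ge c ⟨β, hβ⟩ h⟩

lemma Small.eq_Hc {H : S[X][X]} (h : Small p H) :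
    Hc (fun i : Ix p => (H.coeff i.1).coeff i.2) = H := by
  ext β α
  rcases Nat.lt_or_ge β p with hβ | hβ
  · have h1 := coeff_Hc (fun i : Ix p => (H.coeff i.1).coeff i.2) ⟨β, hβ⟩
    rw [show (Hc _).coeff β = _ from h1]
    rcases Nat.lt_or_ge α (p * (p + 1 - β)) with hα | hα
    · exact coeff_ga _ ⟨β, hβ⟩ ⟨α, hα⟩
    · rw [h.2 β α hβ hα]
      exact coeff_ga_ge _ ⟨β, hβ⟩ hα
  · rw [coeff_Hc_ge _ hβ, h.1 β hβ]

lemma span_gb [Nontrivial S] (J : Ideal (MvPolynomial (Fin 2) S)) {F : S[X][X]} {W : S[X]}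
    (hF : F.Monic) (hFd : F.natDegree = p) (hW : W.Monic) (hWd : W.natDegree = p)
    (h1 : tp S F ∈ J)
    (h2 : ∀ β, β < p → tx S W ^ (p + 1 - β) * MvPolynomial.X 1 ^ β ∈ J)
    (r : MvPolynomial (Fin 2) S) : ∃ c : Ix p → S, r - ∑ i, c i • gb S p i ∈ J := by
  obtain ⟨H, rfl⟩ := tp_surj r
  obtain ⟨H1, hH1⟩ : ∃ H1, H1 = H %ₘ F := ⟨_, rfl⟩
  have hd1 : ∀ β, p ≤ β → H1.coeff β = 0 := by
    intro β hβ
    apply coeff_eq_zero_of_degree_lt
    refine lt_of_lt_of_le (hH1 ▸ degree_modByMonic_lt H hF) ?_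
    rw [degree_eq_natDegree hF.ne_zero, hFd]
    exact_mod_cast hβ
  obtain ⟨H2, hH2⟩ : ∃ H2 : S[X][X],
      H2 = ∑ β : Fin p, monomial (β : ℕ) (H1.coeff β %ₘ W ^ (p + 1 - β)) := ⟨_, rfl⟩
  have hs : Small p H2 := by
    refine ⟨fun β hβ => hH2 ▸ coeff_fin_sum_ge _ hβ, fun β α hβ hα => ?_⟩
    have h3 := coeff_fin_sum (fun β : Fin p => H1.coeff β %ₘ W ^ (p + 1 - β)) ⟨β, hβ⟩
    rw [← hH2] at h3
    rw [show H2.coeff β = _ from h3]
    apply coeff_eq_zero_of_degree_lt
    refine lt_of_lt_of_le (degree_modByMonic_lt _ (hW.pow _)) ?_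
    rw [degree_eq_natDegree (hW.pow _).ne_zero, hW.natDegree_pow, hWd, mul_comm]
    exact_mod_cast hα
  refine ⟨fun i : Ix p => (H2.coeff i.1).coeff i.2, ?_⟩
  rw [← tp_Hc, hs.eq_Hc]
  have e1 : H1 = ∑ β : Fin p, monomial (β : ℕ) (H1.coeff β) := by
    ext1 β
    rcases Nat.lt_or_ge β p with hβ | hβ
    · exact (coeff_fin_sum (fun β : Fin p => H1.coeff β) ⟨β, hβ⟩).symm
    · rw [hd1 β hβ, coeff_fin_sum_ge _ hβ]
  have e2 : H - H2 = F * (H /ₘ F) + ∑ β : Fin p,
      C (H1.coeff β /ₘ W ^ (p + 1 - β)) * (C W ^ (p + 1 - β) * X ^ (β : ℕ)) := by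
    have e3 := modByMonic_add_div H F
    rw [← hH1] at e3
    have e4 : H1 = H2 + ∑ β : Fin p,
        C (H1.coeff β /ₘ W ^ (p + 1 - β)) * (C W ^ (p + 1 - β) * X ^ (β : ℕ)) := by
      conv_lhs => rw [e1]
      rw [hH2, ← Finset.sum_add_distrib]
      refine Finset.sum_congr rfl fun β _ => ?_
      conv_lhs => rw [← modByMonic_add_div (H1.coeff β) (W ^ (p + 1 - β))]
      simp only [← C_mul_X_pow_eq_monomial, map_add, map_mul, map_pow]
      ring
    linear_combination e4 - e3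
  rw [← map_sub, e2, map_add, map_mul, map_sum]
  refine J.add_mem (J.mul_mem_right _ h1) (J.sum_mem fun β _ => ?_)
  rw [map_mul]
  refine J.mul_mem_left _ ?_
  simpa using h2 β β.2

end base

lemma card_Ix (p : ℕ) : 2 * Fintype.card (Ix p) = p ^ 2 * (p + 3) := by
  rw [Fintype.card_sigma]
  simp only [Fintype.card_fin]
  rw [Fin.sum_univ_eq_sum_range (fun β => p * (p + 1 - β)) p, ← Finset.mul_sum]
  have h : ∀ n, n ≤ p → 2 * ∑ β ∈ Finset.range n, (p + 1 - β) + n * n = n * (2 * p + 3) := by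
    intro n
    induction n with
    | zero => simp
    | succ n ih =>
      intro hn
      obtain ⟨d, hd⟩ := Nat.exists_eq_add_of_le hn
      have h1 := ih (by omega)
      rw [Finset.sum_range_succ, show p + 1 - n = d + 2 by omega]
      nlinarith
  have h1 := h p le_rfl
  have h2 : 2 * ∑ β ∈ Finset.range p, (p + 1 - β) = p * (p + 3) := by nlinarith
  calc 2 * (p * ∑ β ∈ Finset.range p, (p + 1 - β))
      = p * (2 * ∑ β ∈ Finset.range p, (p + 1 - β)) := by ring
    _ = p ^ 2 * (p + 3) := by rw [h2]; ring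

end Pool.Agent.Work.MP_41a257_ag
end

-- merged part: Pool.Agent.Work.MP_41a257_ag.Hedge.Key
section
/-!
Values of polynomials of degree `< p` in `y`; coordinates in the monomial basis.
-/

open Polynomial

namespace Pool.Agent.Work.MP_41a257_ag

variable {k : Type*} [Field k] (K : Type*) [Field K] [Algebra k K] [Algebra (P2 k) K]
  [IsScalarTower k (P2 k) K]

lemma A_tx (f : k[X]) : algebraMap (P2 k) K (tx k f) = aeval (xK k K) f := by
  have : (IsScalarTower.toAlgHom k (P2 k) K).comp (tx k) = aeval (xK k K) := by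
    apply Polynomial.algHom_ext
    simp
  exact congr($this f)

lemma A_tp (H : k[X][X]) : algebraMap (P2 k) K (tp k H) =
    eval₂ (aeval (xK k K) : k[X] →ₐ[k] K).toRingHom (yK k K) H := by
  induction H using Polynomial.induction_on' with
  | add a b ha hb => simp only [map_add, eval₂_add, ha, hb]
  | monomial n f =>
    rw [← C_mul_X_pow_eq_monomial, map_mul, map_mul, map_pow, map_pow, tp_C, tp_X, A_tx,
      eval₂_mul, eval₂_C, eval₂_X_pow]
    rfl

namespace GP

variable [IsFractionRing (P2 k) K] {p : ℕ} (P : GP k)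

variable (p) in
/-- The curve of maximal contact `y = g (x)`. -/
noncomputable def g : k[X] :=
  C P.b + ∑ j ∈ Finset.range p, C (P.c j) * (Polynomial.X - C P.a) ^ (j + 1)

lemma y_eq : yK k K = P.X K ^ p * P.s K p + aeval (xK k K) (P.g p) := by
  have h := ch_closed (w := P.Y K) (P.X_ne K) P.c p
  have h2 : aeval (xK k K) (P.g p) = algebraMap k K P.b +
      ∑ j ∈ Finset.range p, algebraMap k K (P.c j) * P.X K ^ (j + 1) := by
    simp [g, GP.X, map_sum]
  rw [h2]
  change P.Y K = _ + P.X K ^ p * P.s K p at h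
  rw [GP.Y] at h
  linear_combination h

lemma x_DV : xK k K ∈ DV k (P.s K p) (P.Z K p (p * p)) := P.rD K p _

lemma aeval_DV (f : k[X]) : aeval (xK k K) f ∈ DV k (P.s K p) (P.Z K p (p * p)) := by
  rw [← A_tx]; exact P.rD K p _

lemma X_eq : P.X K = P.X K / P.s K p ^ p * P.s K p ^ p :=
  (div_mul_cancel₀ _ (pow_ne_zero _ (P.s_ne K p))).symm

lemma exists_val (hp : 2 ≤ p) (hv : P.Valid p) {f : k[X]} (hf : f ≠ 0) :
    ∃ u, DU k (P.s K p) (P.Z K p (p * p)) u ∧
      aeval (xK k K) f = u * P.s K p ^ (p * f.rootMultiplicity P.a) := by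
  obtain ⟨f', h1, h2⟩ := exists_eq_pow_rootMultiplicity_mul_and_not_dvd f hf P.a
  rw [dvd_iff_isRoot, IsRoot.def] at h2
  obtain ⟨f'', h3⟩ := X_sub_C_dvd_sub_C_eval (p := f') (a := P.a)
  have hv' := P.v_DU K hp hv
  obtain ⟨v, hvv⟩ : ∃ v, v = P.X K / P.s K p ^ p := ⟨_, rfl⟩
  have hX : P.X K = v * P.s K p ^ p := hvv ▸ P.X_eq K
  rw [← hvv] at hv'
  have h4 : aeval (xK k K) f' = algebraMap k K (f'.eval P.a) +
      P.s K p * (v * P.s K p ^ (p - 1) * aeval (xK k K) f'') := by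
    have h5 := congr(aeval (xK k K) $h3)
    simp only [map_sub, map_mul, aeval_C, aeval_X] at h5
    change _ = P.X K * _ at h5
    rw [hX, show p = p - 1 + 1 by omega, pow_succ] at h5
    simp only [show p - 1 + 1 = p by omega] at h5
    linear_combination h5
  have h6 : DU k (P.s K p) (P.Z K p (p * p)) (aeval (xK k K) f') := by
    rw [h4]
    exact (DU.const h2).add
      (mul_mem (mul_mem hv'.mem (pow_mem (DV_left _ _) _)) (P.aeval_DV K f''))
  refine ⟨aeval (xK k K) f' * v ^ f.rootMultiplicity P.a, h6.mul (hv'.pow _), ?_⟩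
  generalize f.rootMultiplicity P.a = o at h1
  rw [h1]
  simp only [map_mul, map_pow, map_sub, aeval_C, aeval_X]
  change P.X K ^ o * _ = _
  rw [hX, mul_pow, ← pow_mul]
  ring

lemma key (hp : 2 ≤ p) (hv : P.Valid p) {H : k[X][X]} (hH : H.natDegree < p) {V : ℕ}
    (h : eval₂ (aeval (xK k K) : k[X] →ₐ[k] K).toRingHom (P.X K ^ p * P.s K p) H / P.s K p ^ V ∈
      DV k (P.s K p) (P.Z K p (p * p))) {β : ℕ} (hβ : β < p) (h0 : H.coeff β ≠ 0) :
    V ≤ p * (H.coeff β).rootMultiplicity P.a + (p * p + 1) * β := by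
  classical
  have hv' := P.v_DU K hp hv
  obtain ⟨v, hvv⟩ : ∃ v, v = P.X K / P.s K p ^ p := ⟨_, rfl⟩
  have hX : P.X K = v * P.s K p ^ p := hvv ▸ P.X_eq K
  rw [← hvv] at hv'
  have hex : ∀ i : Fin p, ∃ u, ((H.coeff i = 0 ∧ u = 0) ∨
      (H.coeff i ≠ 0 ∧ DU k (P.s K p) (P.Z K p (p * p)) u)) ∧
      aeval (xK k K) (H.coeff i) * (P.X K ^ p * P.s K p) ^ (i : ℕ) =
        u * P.s K p ^ (p * (H.coeff i).rootMultiplicity P.a + (p * p + 1) * i) := by
    intro i
    by_cases hi : H.coeff i = 0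
    · exact ⟨0, Or.inl ⟨hi, rfl⟩, by simp [hi]⟩
    · obtain ⟨u, hu, h1⟩ := P.exists_val K hp hv hi
      refine ⟨u * (v ^ p) ^ (i : ℕ), Or.inr ⟨hi, hu.mul ((hv'.pow _).pow _)⟩, ?_⟩
      rw [h1, hX]
      ring
  choose u hu1 hu2 using hex
  refine le_of_sum_mem_DV (P.iB K p (p * p))
    (fun i : Fin p => p * (H.coeff i).rootMultiplicity P.a + (p * p + 1) * i) ?_ u
    (fun i => (hu1 i).imp And.right And.right) ?_ ⟨β, hβ⟩ ?_
  · intro i j hij
    have h1 : ∀ (o : ℕ) (l : Fin p), (p * o + (p * p + 1) * l) % p = l := by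
      intro o l
      rw [show p * o + (p * p + 1) * l = l + p * (o + p * l) by ring, Nat.add_mul_mod_self_left,
        Nat.mod_eq_of_lt l.2]
    apply Fin.ext
    have h2 := congr($hij % p)
    simpa only [h1] using h2
  · rw [eval₂_eq_sum_range' _ hH, ← Fin.sum_univ_eq_sum_range
      (fun i => (aeval (xK k K) : k[X] →ₐ[k] K).toRingHom (H.coeff i) *
        (P.X K ^ p * P.s K p) ^ i) p] at h
    simp only [← hu2]
    exact h
  · rcases hu1 ⟨β, hβ⟩ with h1 | h1
    · exact absurd h1.1 h0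
    · exact h1.2.ne (P.iB K p (p * p))

lemma top (hp : 2 ≤ p) (hv : P.Valid p) {H : k[X][X]} (hH : H.natDegree < p) (h0 : H ≠ 0) {V : ℕ}
    (h : algebraMap (P2 k) K (tp k H) / P.s K p ^ V ∈ DV k (P.s K p) (P.Z K p (p * p))) :
    V ≤ p * H.leadingCoeff.rootMultiplicity P.a + (p * p + 1) * H.natDegree := by
  have h1 : eval₂ (aeval (xK k K) : k[X] →ₐ[k] K).toRingHom (P.X K ^ p * P.s K p)
      (taylor (P.g p) H) = algebraMap (P2 k) K (tp k H) := by
    rw [A_tp, taylor_apply, eval₂_comp, eval₂_add, eval₂_X, eval₂_C, P.y_eq K (p := p)]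
    rfl
  have h2 := P.key K hp hv (H := taylor (P.g p) H) (by rwa [natDegree_taylor]) (h1 ▸ h) hH
    (by rw [coeff_taylor_natDegree]; exact leadingCoeff_ne_zero.mpr h0)
  rwa [coeff_taylor_natDegree] at h2

lemma rm_le {f : k[X]} (hf : f ≠ 0) (a : k) : f.rootMultiplicity a ≤ f.natDegree := by
  have := natDegree_le_of_dvd (pow_rootMultiplicity_dvd f a) hf
  rwa [natDegree_pow, natDegree_X_sub_C, mul_one] at this

lemma small_zero (hp : 2 ≤ p) (hv : P.Valid p) {H : k[X][X]} (hs : Small p H)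
    (h : tp k H ∈ P.J K p) : H = 0 := by
  by_contra h0
  have hl : H.leadingCoeff ≠ 0 := leadingCoeff_ne_zero.mpr h0
  have hd : H.natDegree < p := by
    by_contra hn
    exact hl (hs.1 _ (not_lt.mp hn))
  have h1 := P.top K hp hv hd h0 h
  have h2 : H.leadingCoeff.natDegree < p * (p + 1 - H.natDegree) := by
    by_contra hn
    exact leadingCoeff_ne_zero.mpr hl (hs.2 _ _ hd (not_lt.mp hn))
  have h3 := (rm_le hl P.a).trans_lt h2
  generalize H.leadingCoeff.rootMultiplicity P.a = o at h1 h3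
  generalize H.natDegree = d at h1 h3 hd
  obtain ⟨r, rfl⟩ := Nat.exists_eq_add_of_lt hd
  rw [show d + r + 1 + 1 - d = r + 2 by omega] at h3
  have h4 := Nat.mul_le_mul_left (d + r + 1) (Nat.succ_le_of_lt h3)
  nlinarith

lemma coord_eq (hp : 2 ≤ p) (hv : P.Valid p) {r : P2 k} {c : Ix p → k} {H : k[X][X]}
    (hs : Small p H) (hc : r - ∑ i, c i • gb k p i ∈ P.J K p) (hH : r - tp k H ∈ P.J K p)
    (i : Ix p) : c i = (H.coeff i.1).coeff i.2 := by
  have h1 : Small p (Hc c - H) := by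
    have := small_Hc c
    exact ⟨fun β hβ => by rw [coeff_sub, this.1 β hβ, hs.1 β hβ, sub_zero],
      fun β α hβ hα => by rw [coeff_sub, coeff_sub, this.2 β α hβ hα, hs.2 β α hβ hα, sub_zero]⟩
  have h2 := P.small_zero K hp hv h1 (by
    rw [map_sub, tp_Hc]
    convert (P.J K p).sub_mem hH hc using 1
    ring)
  rw [← sub_eq_zero.mp h2, coeff_Hc, coeff_ga]

lemma coord_unique (hp : 2 ≤ p) (hv : P.Valid p) {r : P2 k} {c d : Ix p → k}
    (hc : r - ∑ i, c i • gb k p i ∈ P.J K p) (hd : r - ∑ i, d i • gb k p i ∈ P.J K p) :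
    c = d := by
  funext i
  rw [P.coord_eq K hp hv (small_Hc d) hc (by rwa [tp_Hc]) i, coeff_Hc, coeff_ga]

omit [IsFractionRing (P2 k) K] in
lemma not_vertical {I : Ideal (P2 k)} {c : Ix p → k}
    (hc : MvPolynomial.X 1 ^ p - ∑ i, c i • gb k p i ∈ I) [IsFractionRing (P2 k) K] :
    ¬ SubO k I (P.Y K ^ p) (P.Y K) (P.X K / P.Y K) 1 := by
  intro h
  obtain ⟨F, G, hF, hG, h1⟩ := h _ hc
  rw [pow_one, mem_m0] at hF
  have hY := (P.i0 K).right_ne
  obtain ⟨H, hH⟩ : ∃ H : k[X][X], H = Polynomial.X ^ p - Hc c := ⟨_, rfl⟩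
  have hH1 : MvPolynomial.X 1 ^ p - ∑ i, c i • gb k p i = tp k H := by
    rw [hH, map_sub, map_pow, tp_X, tp_Hc]
  have hdeg : (Hc c).degree < p := (degree_lt_iff_coeff_zero _ _).mpr fun m hm => coeff_Hc_ge c hm
  have hm : H.Monic := hH ▸ monic_X_pow_sub hdeg
  have hd : H.natDegree = p := by
    rw [hH, natDegree_eq_of_degree_eq (degree_sub_eq_left_of_degree_lt (by
      rwa [degree_X_pow])), natDegree_X_pow]
  rw [hH1] at h1
  have h2 : MvPolynomial.aeval ![MvPolynomial.X 0 * MvPolynomial.X 1 + MvPolynomial.C P.a,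
      MvPolynomial.X 0 + MvPolynomial.C P.b] (tp k H) * G = (MvPolynomial.X 0 : P2 k) ^ p * F := by
    apply (P.i0 K).swap.div
    rw [map_mul, map_mul, ev_comp, ← h1, algebraMap_eq_ev]
    have e1 : ev k (P.Y K) (P.X K / P.Y K)
        (MvPolynomial.X 0 * MvPolynomial.X 1 + MvPolynomial.C P.a) = xK k K := by
      simp [mul_div_cancel₀, hY]; simp [GP.X]
    have e2 : ev k (P.Y K) (P.X K / P.Y K) (MvPolynomial.X 0 + MvPolynomial.C P.b) = yK k K := by
      simp [GP.Y]
    rw [e1, e2]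
    simp only [map_pow, ev_X0]
    field_simp
  let π : P2 k →ₐ[k] k[X] := MvPolynomial.aeval ![Polynomial.X, 0]
  have hπ : ∀ Q : P2 k, (π Q).eval 0 = MvPolynomial.constantCoeff Q := by
    intro Q
    induction Q using MvPolynomial.induction_on with
    | C c => simp [π]
    | add a b ha hb => simp only [map_add, eval_add, ha, hb]
    | mul_X a i ha =>
      rw [map_mul, eval_mul, ha]
      fin_cases i <;> simp [π]
  have h3 : ∀ H : k[X][X], π (MvPolynomial.aeval
      ![MvPolynomial.X 0 * MvPolynomial.X 1 + MvPolynomial.C P.a,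
        MvPolynomial.X 0 + MvPolynomial.C P.b] (tp k H)) =
      taylor P.b (H.map (evalRingHom P.a)) := by
    have h4 : ∀ f : k[X], π (MvPolynomial.aeval
        ![MvPolynomial.X 0 * MvPolynomial.X 1 + MvPolynomial.C P.a,
          MvPolynomial.X 0 + MvPolynomial.C P.b] (tx k f)) = C (f.eval P.a) := by
      intro f
      induction f using Polynomial.induction_on' with
      | add a b ha hb => simp only [map_add, eval_add, ha, hb]
      | monomial n a =>
        rw [← C_mul_X_pow_eq_monomial]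
        simp [π]
    intro H
    induction H using Polynomial.induction_on' with
    | add a b ha hb => simp only [map_add, Polynomial.map_add, ha, hb]
    | monomial n f =>
      rw [Polynomial.map_monomial, taylor_monomial, ← C_mul_X_pow_eq_monomial, map_mul, map_mul,
        map_mul, tp_C, h4]
      simp [π]
  have h5 := congr(π $h2)
  rw [map_mul, map_mul, h3] at h5
  have h6 : Polynomial.X ∣ π F := by rw [X_dvd_iff, coeff_zero_eq_eval_zero, hπ, hF]
  have h7 : ¬ Polynomial.X ∣ π G := by rw [X_dvd_iff, coeff_zero_eq_eval_zero, hπ]; exact hG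
  have h8 : Polynomial.X ^ (p + 1) ∣ taylor P.b (H.map (evalRingHom P.a)) := by
    refine prime_X.pow_dvd_of_dvd_mul_right (p + 1) h7 ?_
    rw [h5, pow_succ]
    refine mul_dvd_mul ?_ h6
    simp [π]
  have h9 := natDegree_le_of_dvd h8 (by
    rw [Ne, taylor_eq_zero]; exact (hm.map _).ne_zero)
  rw [natDegree_X_pow, natDegree_taylor, hm.natDegree_map, hd] at h9
  omega

end GP

end Pool.Agent.Work.MP_41a257_ag
end

-- merged part: Pool.Agent.Work.MP_41a257_ag.Hedge.Rel
section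
/-!
The equation satisfied by the coordinates on the stratum.
-/

open Polynomial

namespace Pool.Agent.Work.MP_41a257_ag

/-- The index of `x ^ (p * p)`. -/
def ixS (p : ℕ) (hp : 2 ≤ p) : Ix p :=
  ⟨⟨0, by omega⟩, ⟨p * p, Nat.mul_lt_mul_of_pos_left (by simp) (by omega)⟩⟩

/-- The index of `x ^ (p + i) y ^ (p - 1)`. -/
def ixH (p : ℕ) (hp : 2 ≤ p) (i : Fin p) : Ix p :=
  ⟨⟨p - 1, by omega⟩, ⟨p + i, by
    have := i.2
    change p + i < p * (p + 1 - (p - 1))
    rw [show p + 1 - (p - 1) = 2 by omega]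
    omega⟩⟩

variable {k : Type*} [Field k] (K : Type*) [Field K] [Algebra k K] [Algebra (P2 k) K]
  [IsScalarTower k (P2 k) K] [IsFractionRing (P2 k) K] {p : ℕ} [Fact p.Prime] [CharP k p]

namespace GP

variable (P : GP k)

lemma coord_x (hp : 2 ≤ p) (hv : P.Valid p) {c : Ix p → k}
    (hc : MvPolynomial.X 0 ^ (p * p + p) - ∑ i, c i • gb k p i ∈ P.J K p) :
    c (ixS p hp) = P.a ^ p := by
  have hpp : 2 * p ≤ p * p := Nat.mul_le_mul_right p hp
  obtain ⟨f, hf⟩ : ∃ f : k[X], f = monomial (p * p) (P.a ^ p) + monomial p ((P.a ^ p) ^ p) -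
    monomial 0 ((P.a ^ p) ^ p * P.a ^ p) := ⟨_, rfl⟩
  have h1 : (Polynomial.X : k[X]) ^ (p * p + p) - f = (Polynomial.X - C P.a) ^ (p * p + p) := by
    rw [pow_add (Polynomial.X - C P.a), pow_mul (Polynomial.X - C P.a), sub_pow_char, sub_pow_char,
      hf]
    simp only [← C_mul_X_pow_eq_monomial, map_mul, map_pow, ← pow_mul, pow_add]
    ring
  have hs : Small p (C f) := by
    refine ⟨fun β hβ => by rw [coeff_C, if_neg (by omega)], fun β α _ hα => ?_⟩
    rw [coeff_C]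
    split_ifs with h
    · subst h
      rw [Nat.sub_zero, mul_add] at hα
      rw [hf, coeff_sub, coeff_add, coeff_monomial, coeff_monomial, coeff_monomial,
        if_neg (by omega), if_neg (by omega), if_neg (by omega)]
      simp
    · simp
  have h2 : MvPolynomial.X 0 ^ (p * p + p) - tp k (C f) ∈ P.J K p := by
    have h3 : MvPolynomial.X 0 ^ (p * p + p) - tp k (C f) =
        tx k ((Polynomial.X - C P.a) ^ (p * p + p)) := by
      rw [← h1, map_sub, map_pow, tx_X, tp_C]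
    rw [h3, J, mem_VI, A_tx]
    have h4 := ((P.v_DU K hp hv).pow (p * p + p)).mem
    rw [div_pow, ← pow_mul] at h4
    simpa [GP.X] using h4
  rw [P.coord_eq K hp hv hs hc h2]
  change ((C f).coeff 0).coeff (p * p) = _
  rw [coeff_C_zero, hf, coeff_sub, coeff_add, coeff_monomial, coeff_monomial, coeff_monomial,
    if_pos rfl, if_neg (by omega), if_neg (by omega)]
  simp

lemma dvd_ga (hp : 2 ≤ p) (hv : P.Valid p) {c : Ix p → k}
    (hc : MvPolynomial.X 1 ^ p - ∑ i, c i • gb k p i ∈ P.J K p) :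
    (Polynomial.X - C P.a) ^ (p + 1) ∣ (Hc c).coeff (p - 1) := by
  by_cases h0 : (Hc c).coeff (p - 1) = 0
  · rw [h0]; exact dvd_zero _
  have : CharP K p := charP_of_injective_algebraMap (algebraMap k K).injective p
  obtain ⟨H, hH⟩ : ∃ H : k[X][X], H = Hc c - C (P.g p ^ p) := ⟨_, rfl⟩
  have h1 : H.coeff (p - 1) = (Hc c).coeff (p - 1) := by
    rw [hH, coeff_sub, coeff_C, if_neg (by omega), sub_zero]
  have h2 : H.natDegree = p - 1 := by
    refine natDegree_eq_of_le_of_coeff_ne_zero ?_ (h1 ▸ h0)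
    rw [natDegree_le_iff_coeff_eq_zero]
    intro N hN
    rw [hH, coeff_sub, coeff_Hc_ge c (by omega), coeff_C, if_neg (by omega), sub_zero]
  have h3 : H ≠ 0 := fun h => h0 (by rw [← h1, h, coeff_zero])
  have hs := P.s_ne K p
  have h4 : algebraMap (P2 k) K (tp k H) / P.s K p ^ (p * (p * p + 1)) ∈
      DV k (P.s K p) (P.Z K p (p * p)) := by
    rw [J, mem_VI, ← tp_Hc] at hc
    have h5 := mul_mem hc (pow_mem (DV_left (P.s K p) (P.Z K p (p * p))) (p * (p - 1)))
    have h6 := (((P.v_DU K hp hv).pow p).pow p).mem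
    have h7 : algebraMap (P2 k) K (tp k H) = (P.X K ^ p * P.s K p) ^ p -
        algebraMap (P2 k) K (MvPolynomial.X 1 ^ p - tp k (Hc c)) := by
      rw [hH, map_sub, map_sub, map_sub, tp_C, A_tx, map_pow, map_pow]
      change _ = _ - (yK k K ^ p - _)
      rw [P.y_eq K (p := p), add_pow_char]
      ring
    rw [h7, sub_div]
    refine sub_mem ?_ ?_
    · convert h6 using 1
      simp only [mul_pow, div_pow, ← pow_mul]
      rw [show p * (p * p + 1) = p * p * p + p by ring, pow_add]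
      field_simp
    · convert h5 using 1
      rw [show p * (p * p + p) = p * (p * p + 1) + p * (p - 1) by
        rw [← mul_add]; congr 1; omega, pow_add]
      field_simp
  have h8 := P.top K hp hv (by omega) h3 h4
  rw [leadingCoeff, h2, h1] at h8
  refine (pow_dvd_pow _ ?_).trans (pow_rootMultiplicity_dvd _ P.a)
  generalize ((Hc c).coeff (p - 1)).rootMultiplicity P.a = o at h8
  obtain ⟨r, rfl⟩ : ∃ r, p = r + 1 := ⟨p - 1, by omega⟩
  rw [Nat.add_sub_cancel] at h8
  by_contra hn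
  have h9 := Nat.mul_le_mul_left (r + 1) (show o ≤ r + 1 by omega)
  nlinarith

lemma relation (hp : 2 ≤ p) (hv : P.Valid p) {c : Ix p → k}
    (hc : MvPolynomial.X 1 ^ p - ∑ i, c i • gb k p i ∈ P.J K p) :
    ∑ i : Fin p, c (ixH p hp i) ^ p * (P.a ^ p) ^ (i : ℕ) = 0 := by
  obtain ⟨f, hf⟩ := P.dvd_ga K hp hv hc
  obtain ⟨h, hh⟩ : ∃ h : k[X], h = (Polynomial.X - C P.a) * f := ⟨_, rfl⟩
  have h1 : (Hc c).coeff (p - 1) = h * Polynomial.X ^ p - C (P.a ^ p) * h := by
    rw [hf, pow_succ, mul_assoc, ← hh, sub_pow_char, map_pow]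
    ring
  have h2 : ∀ α, 2 * p ≤ α → ((Hc c).coeff (p - 1)).coeff α = 0 := fun α hα =>
    (small_Hc c).2 _ _ (by omega) (by rw [show p + 1 - (p - 1) = 2 by omega]; omega)
  have h3 : h.natDegree < p := by
    by_contra hn
    have h0 : h ≠ 0 := by
      rintro rfl
      simp at hn
      omega
    have h4 := h2 (h.natDegree + p) (by omega)
    rw [h1, coeff_sub, coeff_mul_X_pow, coeff_C_mul,
      coeff_eq_zero_of_natDegree_lt (p := h) (n := h.natDegree + p) (by omega)] at h4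
    simp only [mul_zero, sub_zero, coeff_natDegree, leadingCoeff_eq_zero] at h4
    exact h0 h4
  have h5 : ∀ i : Fin p, c (ixH p hp i) = h.coeff i := by
    intro i
    have h6 : c (ixH p hp i) = ((Hc c).coeff (p - 1)).coeff (p + i) := by
      have h7 := coeff_Hc c (ixH p hp i).1
      rw [show (Hc c).coeff (p - 1) = _ from h7]
      exact (coeff_ga c (ixH p hp i).1 (ixH p hp i).2).symm
    rw [h6, h1, coeff_sub, add_comm p, coeff_mul_X_pow, coeff_C_mul,
      coeff_eq_zero_of_natDegree_lt (p := h) (n := i + p) (by omega), mul_zero, sub_zero]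
  have h8 : h.eval P.a = 0 := by simp [hh]
  rw [eval_eq_sum_range' h3, ← Fin.sum_univ_eq_sum_range (fun i => h.coeff i * P.a ^ i) p] at h8
  have h9 := congr($h8 ^ p)
  rw [sum_pow_char, zero_pow (by omega)] at h9
  rw [← h9]
  refine Finset.sum_congr rfl fun i _ => ?_
  rw [h5, mul_pow, ← pow_mul, ← pow_mul, mul_comm p]

end GP

end Pool.Agent.Work.MP_41a257_ag
end
end

-- merged part: Pool.Agent.Work.MP_41a257_ag.Hedge.Fin
section
-- merged part: Pool.Agent.Work.MP_41a257_ag.Hedge.Low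
section
/-!
The one-parameter family of ideals and its transforms along the chain.
-/

open Polynomial

namespace Pool.Agent.Work.MP_41a257_ag

section aux

variable {k : Type*} [Field k] {K : Type*} [Field K] [Algebra k K] {e w z : K}

lemma Ord.aeval (hz : Ord k e w 0 z) (f : k[X]) : Ord k e w 0 (aeval z f) := by
  induction f using Polynomial.induction_on' with
  | add a b ha hb => rw [map_add]; exact ha.add hb
  | monomial n a =>
    rw [aeval_monomial]
    exact (Ord.const a).mul0 (by simpa using hz.pow n)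

lemma TU.aeval (hz : Ord k e w 1 z) {f : k[X]} (hf : f.coeff 0 ≠ 0) : TU k e w (aeval z f) := by
  rw [← divX_mul_X_add f, map_add, map_mul, aeval_X, aeval_C, add_comm]
  exact (TU.const hf).add_ord (((hz.mono zero_le_one).aeval _).mul0 hz)

lemma Ord.pow1 (hz : Ord k e w 1 z) {m n : ℕ} (h : m ≤ n) : Ord k e w m (z ^ n) :=
  (hz.pow n).mono (by omega)

lemma Ord.pow0 (hz : Ord k e w 0 z) (n : ℕ) : Ord k e w 0 (z ^ n) :=
  (hz.pow n).mono (by omega)

lemma Ord.left0 : Ord k e w 0 e := Ord.left.mono zero_le_one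
lemma Ord.right0 : Ord k e w 0 w := Ord.right.mono zero_le_one

variable {R : Type*} [CommRing R] [Algebra R K] {I : Ideal R} {μ : K} {m n : ℕ}

lemma SubO.of_mul (h : SubO k I (μ * z) e w m) (h0 : z ≠ 0) (hz : Ord k e w n z) :
    SubO k I μ e w (n + m) := by
  intro g hg
  convert hz.mul (h g hg) using 1
  rw [mul_inv]
  linear_combination (-(μ⁻¹ * algebraMap R K g)) * mul_inv_cancel₀ h0

lemma SubO.mono (h : SubO k I μ e w n) (hmn : m ≤ n) : SubO k I μ e w m :=
  fun g hg => (h g hg).mono hmn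

end aux

variable {k : Type*} [Field k]

/-- Remainders in the expansion of `- T ^ p / u`. -/
noncomputable def rho (u : k[X]) (p : ℕ) : ℕ → k[X]
  | 0 => X ^ (p - 1)
  | n + 1 => divX (rho u p n - C ((rho u p n).coeff 0 / u.coeff 0) * u)

/-- Coefficients of the expansion of `- T ^ p / u`. -/
noncomputable def ee (u : k[X]) (p n : ℕ) : k := -((rho u p n).coeff 0 / u.coeff 0)

lemma rho_succ {u : k[X]} (hu : u.coeff 0 ≠ 0) (p n : ℕ) :
    rho u p (n + 1) * X = rho u p n + C (ee u p n) * u := by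
  have h := divX_mul_X_add (rho u p n - C ((rho u p n).coeff 0 / u.coeff 0) * u)
  rw [coeff_sub, coeff_C_mul, div_mul_cancel₀ _ hu, sub_self, map_zero, add_zero] at h
  rw [rho, h, ee, map_neg]
  ring

lemma rho_lt (u : k[X]) {p n : ℕ} (h : n < p) : rho u p n = X ^ (p - 1 - n) := by
  induction n with
  | zero => rfl
  | succ n ih =>
    rw [rho, ih (by omega), coeff_X_pow, if_neg (by omega), zero_div, map_zero, zero_mul, sub_zero,
      divX_X_pow, if_neg (by omega)]
    rfl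

variable (p : ℕ) (t : k)

noncomputable def uu : k[X] := 1 + C (t ^ (p + 1)) * (X + C t) ^ (p - 1)

/-- The chain of the member `t` of the family. -/
noncomputable def fm : GP k := ⟨-t ^ p, 0, fun j => if j + 1 = p then t else 0, ee (uu p t) p⟩

noncomputable def fW : P2 k := MvPolynomial.X 0 ^ p + MvPolynomial.C (t ^ (p * p))

noncomputable def fF : P2 k := MvPolynomial.X 1 ^ p + MvPolynomial.X 0 * fW p t ^ p +
  (MvPolynomial.C (t ^ (p + 1)) * MvPolynomial.X 0 + MvPolynomial.C (t ^ (2 * p + 1))) * fW p t *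
    MvPolynomial.X 1 ^ (p - 1)

/-- The member `t` of the family. -/
noncomputable def fI : Ideal (P2 k) :=
  Ideal.span {fF p t} ⊔ Ideal.span {fW p t, MvPolynomial.X 1} ^ (p + 1)

lemma fF_mem : fF p t ∈ fI p t := Ideal.mem_sup_left (Ideal.subset_span rfl)

lemma fW_mem {β : ℕ} (hβ : β ≤ p + 1) :
    fW p t ^ (p + 1 - β) * MvPolynomial.X 1 ^ β ∈ fI p t := by
  apply Ideal.mem_sup_right
  have h1 : fW p t ∈ Ideal.span {fW p t, MvPolynomial.X 1} := Ideal.subset_span (by simp)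
  have h2 : MvPolynomial.X 1 ∈ Ideal.span {fW p t, MvPolynomial.X 1} :=
    Ideal.subset_span (by simp)
  have h := Ideal.mul_mem_mul (Ideal.pow_mem_pow h1 (p + 1 - β)) (Ideal.pow_mem_pow h2 β)
  rwa [← pow_add, Nat.sub_add_cancel hβ] at h

lemma fW_mem0 : fW p t ^ (p + 1) ∈ fI p t := by simpa using fW_mem p t (Nat.zero_le _)

variable {p t}

lemma uu_zero (hp : 2 ≤ p) : (uu p t).coeff 0 = 1 + t ^ (2 * p) := by
  rw [coeff_zero_eq_eval_zero, uu]
  simp only [eval_add, eval_one, eval_mul, eval_C, eval_pow, eval_X, zero_add]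
  rw [← pow_add, show p + 1 + (p - 1) = 2 * p by omega]

lemma fm_valid (hp : 2 ≤ p) (ht : 1 + t ^ (2 * p) ≠ 0) : (fm p t).Valid p := by
  refine ⟨fun j hj => ?_, ?_⟩
  · change ee _ _ _ = 0
    rw [ee, rho_lt _ (by omega), coeff_X_pow, if_neg (by omega), zero_div, neg_zero]
  · change ee _ _ _ ≠ 0
    rw [ee, rho_lt _ (by omega), Nat.sub_self, pow_zero, coeff_one_zero, uu_zero hp]
    simpa using ht

variable (K : Type*) [Field K] [Algebra k K] [Algebra (P2 k) K]
  [IsScalarTower k (P2 k) K] [IsFractionRing (P2 k) K] [Fact p.Prime] [CharP k p]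

omit [IsScalarTower k (P2 k) K] [IsFractionRing (P2 k) K] [Fact p.Prime] [CharP k p] in
lemma fm_x : xK k K = (fm p t).X K - algebraMap k K t ^ p := by simp [GP.X, fm]

omit [IsScalarTower k (P2 k) K] [IsFractionRing (P2 k) K] [Fact p.Prime] [CharP k p] in
lemma fm_y : yK k K = (fm p t).Y K := by simp [GP.Y, fm]

omit [IsFractionRing (P2 k) K] in
lemma A_fW : algebraMap (P2 k) K (fW p t) = (fm p t).X K ^ p := by
  have : CharP K p := charP_of_injective_algebraMap (algebraMap k K).injective p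
  rw [fW, map_add, map_pow, Par.A_C, map_pow, pow_mul]
  change xK k K ^ p + _ = _
  rw [fm_x (p := p) (t := t) K, sub_pow_char, sub_add_cancel]

omit [IsFractionRing (P2 k) K] in
lemma A_fF : algebraMap (P2 k) K (fF p t) = (fm p t).Y K ^ p +
    ((fm p t).X K - algebraMap k K t ^ p) * ((fm p t).X K ^ p) ^ p +
    algebraMap k K (t ^ (p + 1)) * (fm p t).X K * (fm p t).X K ^ p * (fm p t).Y K ^ (p - 1) := by
  simp only [fF, map_add, map_mul, map_pow, A_fW, Par.A_C]
  change yK k K ^ p + xK k K * _ + (_ * xK k K + _) * _ * yK k K ^ (p - 1) = _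
  rw [← fm_y K]
  nth_rewrite 1 [fm_x (p := p) (t := t) K]
  rw [fm_x (p := p) (t := t) K]
  ring

omit [Fact p.Prime] [CharP k p] in
lemma fm_Yc {i : ℕ} (hi : i < p) : (fm p t).Y K = (fm p t).X K ^ i * (fm p t).Yc K i := by
  rw [GP.Yc, ch_of_zero (c := (fm p t).c) ((fm p t).X_ne K) fun j hj => if_neg (by omega),
    mul_div_cancel₀ _ (pow_ne_zero _ ((fm p t).X_ne K))]

omit [Fact p.Prime] [CharP k p] in
lemma fm_s (hp : 2 ≤ p) :
    (fm p t).Y K = (fm p t).X K ^ p * ((fm p t).s K p + algebraMap k K t) := by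
  have h := ch_eq_mul (w := (fm p t).Y K) ((fm p t).X_ne K) (fm p t).c (p - 1)
  rw [show p - 1 + 1 = p by omega, show (fm p t).c (p - 1) = t from if_pos (by omega)] at h
  rw [fm_Yc K (show p - 1 < p by omega), GP.Yc, h, ← mul_assoc, ← pow_succ,
    show p - 1 + 1 = p by omega]
  rfl

/-! The first chain. -/

lemma fA {i : ℕ} (hi : i < p) : ((fm p t).X K ^ (p * i))⁻¹ * algebraMap (P2 k) K (fF p t) =
    (fm p t).Yc K i ^ p + ((fm p t).X K - algebraMap k K t ^ p) * (fm p t).X K ^ (p * (p - i)) +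
      algebraMap k K (t ^ (p + 1)) * (fm p t).X K ^ (1 + (p - i)) * (fm p t).Yc K i ^ (p - 1) := by
  have hX := (fm p t).X_ne K
  rw [A_fF, fm_Yc K hi]
  generalize (fm p t).X K = X at hX
  generalize (fm p t).Yc K i = η
  generalize algebraMap k K t ^ p = a
  generalize algebraMap k K (t ^ (p + 1)) = l
  obtain ⟨d, rfl⟩ := Nat.exists_eq_add_of_lt hi
  rw [show i + d + 1 - i = d + 1 by omega, show i + d + 1 - 1 = i + d by omega]
  field_simp
  ring

lemma wA {i : ℕ} (hi : i < p) :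
    ((fm p t).X K ^ (p * i))⁻¹ * algebraMap (P2 k) K (fW p t ^ (p + 1)) =
      (fm p t).X K ^ (p * (p + 1 - i)) := by
  have hX := (fm p t).X_ne K
  rw [map_pow, A_fW, ← pow_mul, show p * (p + 1) = p * i + p * (p + 1 - i) by
    rw [← mul_add]; congr 1; omega, pow_add, inv_mul_cancel_left₀ (pow_ne_zero _ hX)]

lemma SA {i : ℕ} (hi : i < p) :
    SubO k (fI p t) ((fm p t).X K ^ (p * i)) ((fm p t).X K) ((fm p t).Yc K i) p := by
  have hX := (fm p t).X_ne K
  refine SubO.sup (SubO.span ((fm p t).rA K) ?_) ?_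
  · rintro g rfl
    rw [fA K hi]
    refine ((Ord.right.pow1 le_rfl).add
      ((Ord.left0.sub ((Ord.const t).pow0 p)).mul0 (Ord.left.pow1 ?_))).add ?_
    · exact Nat.le_mul_of_pos_right _ (by omega)
    · exact ((((Ord.const _).mul0 (Ord.left.pow1 le_rfl)).mul (Ord.right.pow1 le_rfl))).mono
        (by omega)
  · have h1 : SubO k (Ideal.span {fW p t, MvPolynomial.X 1}) ((fm p t).X K ^ i) ((fm p t).X K)
        ((fm p t).Yc K i) 1 := by
      refine SubO.span ((fm p t).rA K) ?_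
      rintro g (rfl | rfl)
      · rw [A_fW, show p = i + (p - i) by omega, pow_add]
        simp only [show i + (p - i) = p by omega]
        rw [inv_mul_cancel_left₀ (pow_ne_zero _ hX)]
        exact Ord.left.pow1 (by omega)
      · change Ord _ _ _ _ (_ * yK k K)
        rw [fm_y (p := p) (t := t) K, fm_Yc K hi, inv_mul_cancel_left₀ (pow_ne_zero _ hX)]
        exact Ord.right
    have h2 := h1.pow ((fm p t).rA K) (p + 1)
    rw [← pow_mul, mul_add, mul_one, pow_add ((fm p t).X K), mul_comm i] at h2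
    have h3 := h2.of_mul (pow_ne_zero _ hX) (Ord.left0.pow0 i)
    exact h3.mono (by omega)

lemma NA {i : ℕ} (hi : i < p) {c : k} (hc : c ≠ (fm p t).c i) :
    TU k ((fm p t).X K) ((fm p t).Yc K i / (fm p t).X K - algebraMap k K c)
      (((fm p t).X K ^ (p * i))⁻¹ * algebraMap (P2 k) K (fF p t) / (fm p t).X K ^ p) := by
  have hX := (fm p t).X_ne K
  have hw := eq_child (w := (fm p t).Yc K i) hX (algebraMap k K c)
  rw [fA K hi]
  generalize (fm p t).Yc K i / (fm p t).X K - algebraMap k K c = u at hw ⊢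
  rw [hw]
  generalize (fm p t).X K = X at hX
  obtain ⟨d, hd⟩ := Nat.exists_eq_add_of_lt hi
  refine TU.of_poly ((MvPolynomial.X 1 + MvPolynomial.C c) ^ p +
    (MvPolynomial.X 0 - MvPolynomial.C t ^ p) * MvPolynomial.X 0 ^ (p * d) +
    MvPolynomial.C (t ^ (p + 1)) * MvPolynomial.X 0 ^ (d + 1) *
      (MvPolynomial.X 1 + MvPolynomial.C c) ^ (p - 1)) ?_ ?_
  · have h1 : c ^ p - (fm p t).c i ^ p ≠ 0 := by
      rw [← sub_pow_char]
      exact pow_ne_zero _ (sub_ne_zero.mpr hc)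
    convert h1 using 1
    rcases d with _ | d
    · rw [show (fm p t).c i = t from if_pos (by omega)]
      simp [sub_eq_add_neg]
    · have hp : p ≠ 0 := by omega
      rw [show (fm p t).c i = 0 from if_neg (by omega)]
      simp [hp]
  · simp only [map_add, map_mul, map_pow, map_sub, ev_X0, ev_X1, ev_C]
    generalize algebraMap k K t ^ p = a
    generalize algebraMap k K t ^ (p + 1) = l
    subst hd
    rw [show i + d + 1 - i = d + 1 by omega, show i + d + 1 - 1 = i + d by omega]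
    simp only [mul_pow]
    field_simp
    ring

lemma IA {i : ℕ} (hi : i < p) :
    TU k ((fm p t).Yc K i) ((fm p t).X K / (fm p t).Yc K i)
      (((fm p t).X K ^ (p * i))⁻¹ * algebraMap (P2 k) K (fF p t) / (fm p t).Yc K i ^ p) := by
  have hY := ((fm p t).iA K i).right_ne
  have hw := eq_inf (e := (fm p t).X K) hY
  rw [fA K hi]
  generalize (fm p t).X K / (fm p t).Yc K i = u at hw ⊢
  rw [hw]
  generalize (fm p t).Yc K i = Y at hY
  obtain ⟨d, hd⟩ := Nat.exists_eq_add_of_lt hi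
  refine TU.of_poly (1 + (MvPolynomial.X 0 * MvPolynomial.X 1 - MvPolynomial.C t ^ p) *
    MvPolynomial.X 0 ^ (p * d) * MvPolynomial.X 1 ^ (p * (d + 1)) +
    MvPolynomial.C (t ^ (p + 1)) * MvPolynomial.X 0 ^ (d + 1) * MvPolynomial.X 1 ^ (d + 2)) ?_ ?_
  · have hp : p ≠ 0 := by omega
    simp [hp]
  · simp only [map_add, map_mul, map_pow, map_sub, map_one, ev_X0, ev_X1, ev_C]
    generalize algebraMap k K t ^ p = a
    generalize algebraMap k K t ^ (p + 1) = l
    subst hd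
    rw [show i + d + 1 - i = d + 1 by omega, show i + d + 1 - 1 = i + d by omega]
    field_simp
    ring

lemma WA {i : ℕ} (hi : i < p) : weight (fI p t) (TL ((fm p t).iA K i)) = (p : ℕ) := by
  refine (SA K hi).weight_eq _ (pow_ne_zero _ ((fm p t).X_ne K)) ?_ (fF_mem p t)
    (NA K hi (c := (fm p t).c i + 1) (by simp))
  intro y hy
  refine Ord.of_coprime ((fm p t).iA K i) (p * (p + 1 - i)) ?_ ?_ (hy _ (fF_mem p t))
  · obtain ⟨d, hd⟩ : ∃ d, p * (p - i) = d + 1 :=
      ⟨p * (p - i) - 1, by have := Nat.mul_pos (show 0 < p by omega) (show 0 < p - i by omega); omega⟩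
    refine DU.of_poly one_ne_zero p ((MvPolynomial.X 0 - MvPolynomial.C t ^ p) *
      MvPolynomial.X 0 ^ d + MvPolynomial.C (t ^ (p + 1)) * MvPolynomial.X 0 ^ (p - i) *
        MvPolynomial.X 1 ^ (p - 1)) ?_
    rw [fA K hi, hd]
    simp only [map_add, map_mul, map_pow, map_sub, map_one, ev_X0, ev_X1, ev_C]
    ring
  · simpa only [wA K hi] using hy _ (fW_mem0 p t)

/-! The second chain. -/

lemma fB (hp : 2 ≤ p) (ht : 1 + t ^ (2 * p) ≠ 0) (n : ℕ) :
    ((fm p t).X K ^ (p * p) * (fm p t).s K p ^ n)⁻¹ * algebraMap (P2 k) K (fF p t) =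
    aeval ((fm p t).s K p) (uu p t) * (fm p t).Z K p n +
      (fm p t).s K p * aeval ((fm p t).s K p) (rho (uu p t) p n) := by
  have hX := (fm p t).X_ne K
  have hs := (fm p t).s_ne K p
  induction n with
  | zero =>
    have : CharP K p := charP_of_injective_algebraMap (algebraMap k K).injective p
    rw [A_fF, fm_s K hp, mul_pow, add_pow_char, rho, uu, GP.Z, ch_zero]
    simp only [map_add, map_mul, map_pow, map_one, aeval_C, aeval_X, mul_pow]
    generalize (fm p t).X K = X at hX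
    generalize (fm p t).s K p = s at hs
    generalize algebraMap k K t ^ p = a
    generalize algebraMap k K t ^ (p + 1) = l
    generalize (s + algebraMap k K t) ^ (p - 1) = b
    obtain ⟨d, rfl⟩ : ∃ d, p = d + 1 := ⟨p - 1, by omega⟩
    rw [Nat.add_sub_cancel]
    field_simp
    ring
  | succ n ih =>
    have h1 := congr(aeval ((fm p t).s K p)
      $(rho_succ (u := uu p t) (by rwa [uu_zero hp]) p n))
    simp only [map_add, map_mul, aeval_C, aeval_X] at h1
    have h2 := ch_eq_mul (w := (fm p t).X K) hs (fm p t).e n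
    change (fm p t).Z K p n = _ * ((fm p t).Z K p (n + 1) + algebraMap k K (ee (uu p t) p n)) at h2
    rw [pow_succ, ← mul_assoc, mul_inv, mul_right_comm, ih, h2]
    field_simp
    linear_combination -h1

lemma wB (n : ℕ) : ((fm p t).X K ^ (p * p) * (fm p t).s K p ^ n)⁻¹ *
    algebraMap (P2 k) K (fW p t ^ (p + 1)) = (fm p t).X K ^ p / (fm p t).s K p ^ n := by
  have hX := (fm p t).X_ne K
  have hs := (fm p t).s_ne K p
  rw [map_pow, A_fW, ← pow_mul, mul_add, mul_one, pow_add]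
  field_simp

lemma sB (hp : 2 ≤ p) (ht : 1 + t ^ (2 * p) ≠ 0) {n : ℕ} (hn : n ≤ p * p) :
    (fm p t).s K p ^ (p * p - n) + aeval ((fm p t).s K p) (uu p t) ^ p *
      ((fm p t).X K ^ p / (fm p t).s K p ^ n) = (fm p t).s K p ^ (n * (p - 1)) *
      (((fm p t).X K ^ (p * p) * (fm p t).s K p ^ n)⁻¹ * algebraMap (P2 k) K (fF p t)) ^ p := by
  have : CharP K p := charP_of_injective_algebraMap (algebraMap k K).injective p
  have hs := (fm p t).s_ne K p
  have h := congr($(fB K hp ht 0) ^ p)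
  rw [pow_zero, mul_one, rho, GP.Z, ch_zero, map_pow, aeval_X, ← pow_succ',
    show p - 1 + 1 = p by omega, add_pow_char, ← pow_mul] at h
  rw [mul_inv, mul_right_comm, mul_pow, h]
  generalize (fm p t).s K p = s at hs
  obtain ⟨d, hd⟩ := Nat.exists_eq_add_of_le hn
  rw [hd, Nat.add_sub_cancel_left, inv_pow, ← pow_mul, show n * p = n * (p - 1) + n by
    rw [← Nat.mul_succ]; congr 1; omega, mul_pow]
  field_simp
  ring

omit [IsScalarTower k (P2 k) K] [IsFractionRing (P2 k) K] [Fact p.Prime] [CharP k p] in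
lemma uB (hp : 2 ≤ p) (ht : 1 + t ^ (2 * p) ≠ 0) {e w : K} (h : Ord k e w 1 ((fm p t).s K p)) :
    TU k e w (aeval ((fm p t).s K p) (uu p t)) := TU.aeval h (by rwa [uu_zero hp])

lemma FB (hp : 2 ≤ p) (ht : 1 + t ^ (2 * p) ≠ 0) (n : ℕ) :
    Ord k ((fm p t).s K p) ((fm p t).Z K p n) 1
      (((fm p t).X K ^ (p * p) * (fm p t).s K p ^ n)⁻¹ * algebraMap (P2 k) K (fF p t)) := by
  rw [fB K hp ht]
  exact ((Ord.left0.aeval _).mul0 Ord.right).add (Ord.left.mul0' (Ord.left0.aeval _))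

lemma SB (hp : 2 ≤ p) (ht : 1 + t ^ (2 * p) ≠ 0) {n : ℕ} (hn : n < p * p) :
    SubO k (fI p t) ((fm p t).X K ^ (p * p) * (fm p t).s K p ^ n) ((fm p t).s K p)
      ((fm p t).Z K p n) 1 := by
  have hX := (fm p t).X_ne K
  have hs := (fm p t).s_ne K p
  refine SubO.sup (SubO.span ((fm p t).rB K p) ?_) ?_
  · rintro g rfl
    exact FB K hp ht n
  · have h1 : SubO k (Ideal.span {fW p t, MvPolynomial.X 1}) ((fm p t).X K ^ p)
        ((fm p t).s K p) ((fm p t).Z K p n) 0 := by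
      refine SubO.span ((fm p t).rB K p) ?_
      rintro g (rfl | rfl)
      · rw [A_fW, inv_mul_cancel₀ (pow_ne_zero _ hX)]
        exact Ord.one
      · change Ord _ _ _ _ (_ * yK k K)
        rw [fm_y (p := p) (t := t) K, fm_s K hp, inv_mul_cancel_left₀ (pow_ne_zero _ hX)]
        exact Ord.left0.add (Ord.const t)
    have h2 := h1.pow ((fm p t).rB K p) (p + 1)
    rw [show ((fm p t).X K ^ p) ^ (p + 1) = (fm p t).X K ^ (p * p) * (fm p t).s K p ^ n *
      ((fm p t).X K ^ p / (fm p t).s K p ^ n) by rw [pow_succ, ← pow_mul]; field_simp] at h2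
    have hu := (uB K hp ht (Ord.left (w := (fm p t).Z K p n))).pow p
    have h3 : Ord k ((fm p t).s K p) ((fm p t).Z K p n) 1
        ((fm p t).X K ^ p / (fm p t).s K p ^ n) := by
      have h4 := (hu.inv ((fm p t).iB K p n)).ord.mul0
        (((Ord.left0.pow0 (n * (p - 1))).mul0 ((FB K hp ht n).pow1 (show 1 ≤ p by omega))).sub
          (Ord.left.pow1 (show 1 ≤ p * p - n by omega)))
      rwa [← sB K hp ht hn.le, add_sub_cancel_left,
        inv_mul_cancel_left₀ (hu.ne ((fm p t).iB K p n))] at h4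
    have h5 := h2.of_mul (div_ne_zero (pow_ne_zero _ hX) (pow_ne_zero _ hs)) h3
    exact h5.mono (by omega)

lemma NB (hp : 2 ≤ p) (ht : 1 + t ^ (2 * p) ≠ 0) (n : ℕ) {c : k} (hc : c ≠ (fm p t).e n) :
    TU k ((fm p t).s K p) ((fm p t).Z K p n / (fm p t).s K p - algebraMap k K c)
      (((fm p t).X K ^ (p * p) * (fm p t).s K p ^ n)⁻¹ * algebraMap (P2 k) K (fF p t) /
        (fm p t).s K p ^ 1) := by
  have hs := (fm p t).s_ne K p
  have hw := eq_child (w := (fm p t).Z K p n) hs (algebraMap k K c)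
  have h1 := congr(aeval ((fm p t).s K p)
      $(rho_succ (u := uu p t) (by rwa [uu_zero hp]) p n))
  simp only [map_add, map_mul, aeval_C, aeval_X] at h1
  rw [fB K hp ht]
  generalize (fm p t).Z K p n / (fm p t).s K p - algebraMap k K c = u at hw ⊢
  have h2 := ((uB K hp ht (Ord.left (w := u))).mul
    ((TU.const (sub_ne_zero.mpr hc)).add_ord Ord.right)).add_ord
      ((Ord.left0.aeval (rho (uu p t) p (n + 1))).mul0 Ord.left)
  convert h2 using 1
  rw [hw, h1, map_sub]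
  change _ = _ * (_ - algebraMap k K (ee (uu p t) p n) + _) + _
  field_simp
  ring

lemma IB (hp : 2 ≤ p) (ht : 1 + t ^ (2 * p) ≠ 0) (n : ℕ) :
    TU k ((fm p t).Z K p n) ((fm p t).s K p / (fm p t).Z K p n)
      (((fm p t).X K ^ (p * p) * (fm p t).s K p ^ n)⁻¹ * algebraMap (P2 k) K (fF p t) /
        (fm p t).Z K p n ^ 1) := by
  have hZ := ((fm p t).iB K p n).right_ne
  have h1 : Ord k ((fm p t).Z K p n) ((fm p t).s K p / (fm p t).Z K p n) 1 ((fm p t).s K p) := by
    have := Ord.left.mul0' (Ord.right0 (k := k) (e := (fm p t).Z K p n)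
      (w := (fm p t).s K p / (fm p t).Z K p n))
    rwa [← eq_inf hZ] at this
  have h2 := (uB K hp ht h1).add_ord
    (Ord.right.mul0' ((h1.mono zero_le_one).aeval (rho (uu p t) p n)))
  convert h2 using 1
  rw [fB K hp ht]
  field_simp

lemma WB (hp : 2 ≤ p) (ht : 1 + t ^ (2 * p) ≠ 0) {n : ℕ} (hn : n < p * p) :
    weight (fI p t) (TL ((fm p t).iB K p n)) = (1 : ℕ) := by
  refine (SB K hp ht hn).weight_eq _ (mul_ne_zero (pow_ne_zero _ ((fm p t).X_ne K))
    (pow_ne_zero _ ((fm p t).s_ne K p))) ?_ (fF_mem p t)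
    (NB K hp ht n (c := (fm p t).e n + 1) (by simp))
  intro y hy
  refine Ord.of_coprime ((fm p t).iB K p n) (p * p - n) ?_ ?_ (hy _ (fF_mem p t))
  · rw [fB K hp ht]
    exact ((uB K hp ht Ord.left).du.mul DU.right).add (Ord.left0.aeval _).mem_DV
  · have h1 := hy _ (fW_mem0 p t)
    rw [wB] at h1
    have h2 := (((hy _ (fF_mem p t)).mul0 (((FB K hp ht n).mono zero_le_one).pow0 (p - 1))).mul0
      (Ord.left0.pow0 (n * (p - 1)))).sub (h1.mul0 ((uB K hp ht Ord.left).ord.pow0 p))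
    convert h2 using 1
    rw [mul_assoc y, ← pow_succ', show p - 1 + 1 = p by omega]
    linear_combination y * sB K hp ht hn.le

lemma fI_le_J (hp : 2 ≤ p) (ht : 1 + t ^ (2 * p) ≠ 0) : fI p t ≤ (fm p t).J K p := by
  refine (fm p t).le_J K hp (fm_valid hp ht) ?_
  obtain ⟨n, hn⟩ : ∃ n, p * p = n + 1 := ⟨p * p - 1, by have := Nat.mul_le_mul hp hp; omega⟩
  have h := (SB K hp ht (n := n) (by omega)).child ((fm p t).s_ne K p) ((fm p t).e n)
  rw [mul_assoc, ← pow_add, ← hn] at h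
  rw [GP.Z]
  nth_rewrite 3 [hn]
  exact h

lemma root_fm {a b : k} (h : 0 < weight (fI p t) (TL ((indep_xy k K).shift a b))) :
    TL ((indep_xy k K).shift a b) = (fm p t).q K p 0 := by
  have hp : p ≠ 0 := (Fact.out : p.Prime).ne_zero
  have S : SubO k (fI p t) 1 (xK k K - algebraMap k K a) (yK k K - algebraMap k K b) 0 :=
    fun g _ => by simpa using ord_root a b g
  have ha : a = -t ^ p := by
    by_contra ha
    refine S.not_pos _ (fW_mem0 p t) ?_ h
    have h1 := ((TU.const (e := xK k K - algebraMap k K a) (w := yK k K - algebraMap k K b)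
      (sub_ne_zero.mpr ha)).add_ord Ord.left).pow p
    convert h1.pow (p + 1) using 1
    rw [inv_one, one_mul, map_pow, A_fW, map_sub, add_comm (_ - _), sub_add_sub_cancel]
    rfl
  subst ha
  have hb : b = 0 := by
    by_contra hb
    refine S.not_pos _ (fF_mem p t) ?_ h
    change TU k ((fm p t).X K) _ _
    have h0 : (fm p t).Y K = algebraMap k K b + (yK k K - algebraMap k K b) := by
      simp [GP.Y, fm]
    rw [inv_one, one_mul, A_fF, h0, add_assoc]
    generalize yK k K - algebraMap k K b = Y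
    have h1 := (TU.const (e := (fm p t).X K) (w := Y) hb).add_ord Ord.right
    refine (h1.pow p).add_ord (Ord.add ?_ ?_)
    · exact (Ord.left0.sub ((Ord.const t).pow0 p)).mul0
        ((Ord.left.pow1 (by omega)).pow1 (by omega))
    · exact (((Ord.const _).mul0 Ord.left).mul0' (Ord.left0.pow0 _)).mul0' (h1.ord.pow0 _)
  subst hb
  rw [(fm p t).qA K p (Nat.zero_le p)]
  rfl

lemma step_fm [IsAlgClosed k] (hp : 2 ≤ p) (ht : 1 + t ^ (2 * p) ≠ 0) {i : ℕ}
    (hi : i < p + p * p) {T : LocalSubring K} (hq : IsQuadTransform ((fm p t).q K p i) T)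
    (h : 0 < weight (fI p t) T) : ∃ j, j < p + p * p ∧ (fm p t).q K p j = T := by
  rcases Nat.lt_or_ge i p with h1 | h1
  · rw [(fm p t).qA K p h1.le] at hq
    rcases quad_cases _ hq with ⟨c, rfl⟩ | rfl
    · by_cases hc : c = (fm p t).c i
      · subst hc
        exact ⟨i + 1, by have := Nat.mul_le_mul hp hp; omega, (fm p t).qA K p h1⟩
      · exact absurd h ((SA K h1).not_pos_child ((fm p t).iA K i) (fF_mem p t) (NA K h1 hc))
    · exact absurd h ((SA K h1).not_pos_inf ((fm p t).iA K i) (fF_mem p t) (IA K h1))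
  · obtain ⟨n, rfl⟩ := Nat.exists_eq_add_of_le h1
    have hn : n < p * p := by omega
    rw [(fm p t).qB K p] at hq
    rcases quad_cases _ hq with ⟨c, rfl⟩ | rfl
    · by_cases hc : c = (fm p t).e n
      · subst hc
        by_cases h2 : n + 1 < p * p
        · exact ⟨p + (n + 1), by omega, (fm p t).qB K p (n + 1)⟩
        · refine absurd h ((SB K hp ht hn).not_pos_child ((fm p t).iB K p n) (fW_mem0 p t) ?_)
          have h3 := ((fm p t).v_TU K hp (fm_valid hp ht) (t := n + 1)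
            (by have := Nat.le_mul_self p; omega)).pow p
          rw [wB, div_div, ← pow_add]
          rwa [div_pow, ← pow_mul, show p * p = n + 1 by omega] at h3
      · exact absurd h ((SB K hp ht hn).not_pos_child ((fm p t).iB K p n) (fF_mem p t)
          (NB K hp ht n hc))
    · exact absurd h ((SB K hp ht hn).not_pos_inf ((fm p t).iB K p n) (fF_mem p t)
        (IB K hp ht n))

theorem shape_fm [IsAlgClosed k] (hp : 2 ≤ p) (ht : 1 + t ^ (2 * p) ≠ 0) :
    GShape K (p + p * p) (Px p) (Wx p) (fI p t) ((fm p t).q K p) := by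
  have hw : ∀ i, i < p + p * p → weight (fI p t) ((fm p t).q K p i) = (Wx p i : ℕ) := by
    intro i hi
    rcases Nat.lt_or_ge i p with h1 | h1
    · rw [(fm p t).qA K p h1.le, Wx, if_pos h1, WA K h1]
    · obtain ⟨n, rfl⟩ := Nat.exists_eq_add_of_le h1
      rw [(fm p t).qB K p, Wx, if_neg (by omega), WB K hp ht (by omega)]
  refine ⟨fun T => ⟨?_, ?_⟩, fun i j _ _ => (fm p t).prec_q K p i j,
    fun i j _ _ => (fm p t).prox_q K hp (fm_valid hp ht) i j, hw⟩
  · rintro ⟨⟨n, hn, h1⟩, h2⟩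
    induction h1 with
    | refl =>
      obtain ⟨a, b, h⟩ := root_eq n
      rw [h] at h2 ⊢
      exact ⟨0, by omega, (root_fm K h2).symm⟩
    | tail _ h4 ih =>
      obtain ⟨i, hi, rfl⟩ := ih (weight_pos_of_le _ h4.le h2)
      exact step_fm K hp ht hi h4 h2
  · rintro ⟨i, hi, rfl⟩
    refine ⟨?_, ?_⟩
    · refine IsPoint.of_precedes ?_ ((fm p t).prec_of_le K p (Nat.zero_le i))
      rw [(fm p t).qA K p (Nat.zero_le p)]
      exact isPoint_root _ _
    · rw [hw i hi, Wx]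
      split_ifs
      · exact_mod_cast (show 0 < p by omega)
      · simp

end Pool.Agent.Work.MP_41a257_ag
end

-- merged part: Pool.Agent.Work.MP_41a257_ag.Hedge.Obs
section
/-!
A tangent vector that does not extend to order `p`.
-/

open Polynomial

namespace Pool.Agent.Work.MP_41a257_ag

variable (k : Type*) [Field k]

/-- The algebra `k + t ^ n k[t]`. -/
def Wn (n : ℕ) : Subalgebra k k[X] where
  carrier := {P | X ^ n ∣ P - C (P.coeff 0)}
  mul_mem' := by
    intro P Q hP hQ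
    simp only [Set.mem_ofPred_eq, mul_coeff_zero, map_mul] at *
    convert dvd_add (hP.mul_right Q) (hQ.mul_left (C (P.coeff 0))) using 1
    ring
  add_mem' := by
    intro P Q hP hQ
    simp only [Set.mem_ofPred_eq, coeff_add, map_add] at *
    convert dvd_add hP hQ using 1
    ring
  algebraMap_mem' := by
    intro c
    simp

variable {k}

lemma X_pow_mem_Wn {n m : ℕ} (h0 : 0 < m) (hn : n ≤ m) : (X ^ m : k[X]) ∈ Wn k n := by
  change (X ^ n : k[X]) ∣ X ^ m - C ((X ^ m : k[X]).coeff 0)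
  rw [coeff_X_pow, if_neg (by omega)]
  simpa using pow_dvd_pow X hn

lemma coeff_mul_Wn {n d : ℕ} (h0 : 0 < d) (hd : d < n + n) (P Q : Wn k n) : (P.1 * Q.1).coeff d =
    P.1.coeff 0 * Q.1.coeff d + Q.1.coeff 0 * P.1.coeff d := by
  have h : X ^ (n + n) ∣ (P.1 - C (P.1.coeff 0)) * (Q.1 - C (Q.1.coeff 0)) := by
    rw [pow_add]
    exact mul_dvd_mul P.2 Q.2
  have h1 := X_pow_dvd_iff.mp h d hd
  have h2 : P.1 * Q.1 = (P.1 - C (P.1.coeff 0)) * (Q.1 - C (Q.1.coeff 0)) +
      C (P.1.coeff 0) * Q.1 + C (Q.1.coeff 0) * P.1 - C (P.1.coeff 0 * Q.1.coeff 0) := by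
    rw [map_mul]; ring
  rw [h2, coeff_sub, coeff_add, coeff_add, h1, coeff_C_mul, coeff_C_mul, coeff_C, if_neg h0.ne']
  simp

private theorem h14_deltaN {R : Type*} [CommRing R] [Algebra k R] {p : ℕ} (hp : 0 < p) (π : k[X] →ₐ[k] R)
    (hπ : ∀ a b, π a = π b ↔ X ^ 2 ∣ a - b) : ∃ δ : Wn k (p + 1) →ₐ[k] R,
    (∀ P, δ P = π (C (P.1.coeff 0) + C (P.1.coeff (2 * p + 1)) * X)) ∧
      ∀ P, P.1.coeff 0 ≠ 0 → IsUnit (δ P) := by
  let δ : Wn k (p + 1) →ₐ[k] R :=
    { toFun := fun P => π (C (P.1.coeff 0) + C (P.1.coeff (2 * p + 1)) * X)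
      map_one' := by simp [coeff_one]
      map_mul' := by
        intro P Q
        rw [← map_mul, hπ, Subalgebra.coe_mul, mul_coeff_zero,
          coeff_mul_Wn (d := 2 * p + 1) (by omega) (by omega)]
        refine ⟨-C (P.1.coeff (2 * p + 1) * Q.1.coeff (2 * p + 1)), ?_⟩
        simp only [map_add, map_mul]
        ring
      map_zero' := by simp
      map_add' := by
        intro P Q
        rw [← map_add]
        congr 1
        simp only [Subalgebra.coe_add, coeff_add, map_add]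
        ring
      commutes' := by
        intro c
        rw [← π.commutes]
        congr 1
        simp [coeff_C] }
  refine ⟨δ, fun _ => rfl, fun P h0 => ?_⟩
  change IsUnit (π (C (P.1.coeff 0) + C (P.1.coeff (2 * p + 1)) * X))
  generalize P.1.coeff 0 = a at h0
  generalize P.1.coeff (2 * p + 1) = b
  refine IsUnit.of_mul_eq_one (π (C a⁻¹ - C (b * a⁻¹ * a⁻¹) * X)) ?_
  rw [← map_mul, ← map_one π, hπ]
  refine ⟨-C (b * b * a⁻¹ * a⁻¹), ?_⟩
  have : (C a * C a⁻¹ : k[X]) = 1 := by rw [← map_mul, mul_inv_cancel₀ h0, map_one]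
  simp only [map_mul]
  linear_combination (1 - C b * C a⁻¹ * X) * this

theorem not_isSmoothAt_Wn {A : Type*} [CommRing A] [Algebra k A] (m : Ideal A) [m.IsPrime]
    {p : ℕ} (hp : 0 < p) (ψ : A →ₐ[k] Wn k (p + 1)) (hψ : ∀ φ, φ ∉ m → (ψ φ).1.coeff 0 ≠ 0)
    (h : Fin p → A) (σ : A) (hrel : ∑ i : Fin p, h i ^ p * σ ^ (i : ℕ) = 0)
    (h0 : (ψ (h ⟨0, hp⟩)).1.coeff (2 * p + 1) = -1) (hi : ∀ i, (ψ (h i)).1.coeff 0 = 0)
    (hσ : (ψ σ).1.coeff 0 = 0) : ¬ Algebra.IsSmoothAt k m := by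
  intro hsm
  let I3 : Ideal k[X] := Ideal.span {X ^ (p + 1)}
  let I : Ideal (k[X] ⧸ I3) := (Ideal.span {X ^ 2}).map (Ideal.Quotient.mk I3)
  have hI : IsNilpotent I := by
    refine ⟨p + 1, ?_⟩
    rw [← Ideal.map_pow, Ideal.zero_eq_bot, Ideal.map_eq_bot_iff_le_ker, Ideal.mk_ker,
      Ideal.span_singleton_pow, Ideal.span_singleton_le_span_singleton, ← pow_mul]
    exact pow_dvd_pow X (by omega)
  let π : k[X] →ₐ[k] (k[X] ⧸ I3) ⧸ I := (Ideal.Quotient.mkₐ k I).comp (Ideal.Quotient.mkₐ k I3)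
  have hπ : ∀ a b, π a = π b ↔ X ^ 2 ∣ a - b := by
    intro a b
    change Ideal.Quotient.mk I (Ideal.Quotient.mk I3 a) =
      Ideal.Quotient.mk I (Ideal.Quotient.mk I3 b) ↔ _
    rw [Ideal.Quotient.eq, ← map_sub, Ideal.mem_quotient_iff_mem, Ideal.mem_span_singleton]
    rw [Ideal.span_singleton_le_span_singleton]
    exact pow_dvd_pow X (by omega)
  obtain ⟨δ, hδ, hu'⟩ := h14_deltaN (k := k) (R := (k[X] ⧸ I3) ⧸ I) hp π hπ
  have hu : ∀ y : m.primeCompl, IsUnit ((δ.comp ψ) y) := fun y => hu' _ (hψ y y.2)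
  let g : Localization.AtPrime m →ₐ[k] (k[X] ⧸ I3) ⧸ I :=
    IsLocalization.liftAlgHom (A := k) (R := A) (M := m.primeCompl) (S := Localization.AtPrime m)
      (P := (k[X] ⧸ I3) ⧸ I) (f := δ.comp ψ) hu
  obtain ⟨f, hf⟩ := Algebra.FormallySmooth.exists_lift (R := k) I hI g
  have hf' : ∀ φ : A, Ideal.Quotient.mkₐ k I (f (algebraMap A _ φ)) = δ (ψ φ) := by
    intro φ
    have := congr($hf (algebraMap A _ φ))
    exact this.trans (IsLocalization.lift_eq (M := m.primeCompl) (g := (δ.comp ψ).toRingHom) hu φ)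
  choose L hL using fun φ : A => Ideal.Quotient.mk_surjective (f (algebraMap A _ φ))
  have h1 : ∀ φ, X ^ 2 ∣ L φ - (C ((ψ φ).1.coeff 0) + C ((ψ φ).1.coeff (2 * p + 1)) * X) := by
    intro φ
    rw [← hπ, ← hδ, ← hf' φ, ← hL]
    rfl
  have h2 : ∀ φ, (ψ φ).1.coeff 0 = 0 → X ∣ L φ := by
    intro φ hφ
    have h3 := (dvd_pow_self X two_ne_zero).trans (h1 φ)
    rw [hφ, map_zero, zero_add] at h3
    simpa using dvd_add h3 (dvd_mul_left X (C ((ψ φ).1.coeff (2 * p + 1))))
  have h3 : X ^ (p + 1) ∣ ∑ i : Fin p, L (h i) ^ p * L σ ^ (i : ℕ) := by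
    rw [← Ideal.mem_span_singleton, ← Ideal.Quotient.eq_zero_iff_mem]
    have := congr(f (algebraMap A (Localization.AtPrime m) $hrel))
    simpa only [map_mul, map_pow, map_sum, map_zero, ← hL] using this
  rw [← Finset.add_sum_erase _ _ (Finset.mem_univ ⟨0, hp⟩), dvd_add_left (Finset.dvd_sum
    fun i hi0 => by
      rw [pow_succ]
      refine mul_dvd_mul (pow_dvd_pow_of_dvd (h2 _ (hi i)) p) ((h2 σ hσ).trans (dvd_pow_self _ ?_))
      exact fun h4 => (Finset.mem_erase.mp hi0).1 (Fin.ext h4))] at h3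
  obtain ⟨Q, hQ⟩ := h1 (h ⟨0, hp⟩)
  rw [h0, hi] at hQ
  have h4 : L (h ⟨0, hp⟩) = X * (X * Q - 1) := by
    simp only [map_zero, map_neg, map_one] at hQ
    linear_combination hQ
  rw [h4, pow_zero, mul_one, mul_pow, pow_succ,
    mul_dvd_mul_iff_left (pow_ne_zero _ X_ne_zero), X_dvd_iff, coeff_zero_eq_eval_zero] at h3
  simp at h3

end Pool.Agent.Work.MP_41a257_ag
end

-- merged part: Pool.Agent.Work.MP_41a257_ag.Hedge.Fin
section
/-!
The singular point of the stratum in characteristic `p`.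
-/

open Polynomial

namespace Pool.Agent.Work.MP_41a257_ag

variable {k : Type*} [Field k] {p : ℕ}

/-- Evaluation of elements of `Wn`. -/
noncomputable def evN {n : ℕ} (t : k) : Wn k n →ₐ[k] k := (aeval t).comp (Wn k n).val

noncomputable def twN {n : ℕ} (m : ℕ) (h0 : 0 < m) (hn : n ≤ m) : Wn k n :=
  ⟨X ^ m, X_pow_mem_Wn h0 hn⟩

lemma evN_twN {n : ℕ} (t : k) (m : ℕ) (h0 : 0 < m) (hn : n ≤ m) :
    evN t (twN m h0 hn) = t ^ m := by simp [evN, twN]

lemma map_sum_gb {S : Type*} [CommRing S] (φ : S →+* k) (c : Ix p → S) :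
    MvPolynomial.map φ (∑ i, c i • gb S p i) = ∑ i, φ (c i) • gb k p i := by
  simp [gb, MvPolynomial.smul_eq_C_mul]

lemma fI_coord (hp : 2 ≤ p) (r : P2 k) : ∃ c : Ix p → Wn k (p + 1), ∀ t : k,
    r - ∑ i, evN t (c i) • gb k p i ∈ fI p t := by
  let J : Ideal (MvPolynomial (Fin 2) (Wn k (p + 1))) :=
    ⨅ t : k, (fI p t).comap (MvPolynomial.map (evN (n := p + 1) t : Wn k (p + 1) →+* k))
  have hJ : ∀ g, g ∈ J ↔ ∀ t : k,
      MvPolynomial.map (evN (n := p + 1) t : Wn k (p + 1) →+* k) g ∈ fI p t := by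
    intro g; simp [J]
  have hpp : 2 * p ≤ p * p := Nat.mul_le_mul_right p hp
  obtain ⟨W, hW⟩ : ∃ W : (Wn k (p + 1))[X],
    W = X ^ p + C (twN (p * p) (by omega) (by omega)) := ⟨_, rfl⟩
  obtain ⟨G, hG⟩ : ∃ G : (Wn k (p + 1))[X][X], G = C (X * W ^ p) +
    C ((C (twN (p + 1) (by omega) (by omega)) * X + C (twN (2 * p + 1) (by omega) (by omega))) * W)
      * X ^ (p - 1) := ⟨_, rfl⟩
  have hGd : G.degree < p := by
    rw [degree_lt_iff_coeff_zero]
    intro m hm
    rw [hG, coeff_add, coeff_C, coeff_C_mul, coeff_X_pow, if_neg (by omega), if_neg (by omega)]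
    simp
  have h1 : ∀ t : k, MvPolynomial.map (evN (n := p + 1) t : Wn k (p + 1) →+* k) (tx _ W) = fW p t := by
    intro t
    simp [hW, fW, evN_twN]
  obtain ⟨c, hc⟩ := span_gb (p := p) J (F := X ^ p + G) (W := W) (monic_X_pow_add hGd)
    (by rw [natDegree_add_eq_left_of_degree_lt (by rwa [degree_X_pow]), natDegree_X_pow])
    (hW ▸ monic_X_pow_add_C _ (by omega)) (hW ▸ natDegree_X_pow_add_C) (by
      rw [hJ]
      intro t
      convert fF_mem p t using 1
      simp only [hG, fF, map_add, map_mul, map_pow, tp_X, tp_C, tx_X, tx_C, h1,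
        MvPolynomial.map_X, MvPolynomial.map_C, RingHom.coe_coe, evN_twN, add_assoc]) (by
      intro β hβ
      rw [hJ]
      intro t
      simpa only [map_mul, map_pow, h1, MvPolynomial.map_X] using fW_mem p t (β := β) (by omega))
    (MvPolynomial.map (algebraMap k (Wn k (p + 1))) r)
  refine ⟨c, fun t => ?_⟩
  have := (hJ _).mp hc t
  rw [map_sub, map_sum_gb, MvPolynomial.map_map, AlgHom.comp_algebraMap] at this
  simpa [MvPolynomial.map_id] using this

lemma fI_zero (hp : 2 ≤ p) : fI p (0 : k) =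
    Ideal.span {MvPolynomial.X 1 ^ p + MvPolynomial.X 0 ^ (p ^ 2 + 1)} ⊔
      Ideal.span {MvPolynomial.X 0 ^ p, MvPolynomial.X 1} ^ (p + 1) := by
  have h0 : p ≠ 0 := by omega
  have h1 : fW p (0 : k) = MvPolynomial.X 0 ^ p := by simp [fW, h0]
  have h2 : fF p (0 : k) = MvPolynomial.X 1 ^ p + MvPolynomial.X 0 ^ (p ^ 2 + 1) := by
    simp only [fF, h1, zero_pow (Nat.succ_ne_zero _), map_zero]
    ring
  rw [fI, h1, h2]

lemma one_add_zero_pow' (hp : 2 ≤ p) : (1 : k) + 0 ^ (2 * p) ≠ 0 := by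
  rw [zero_pow (by omega), add_zero]; exact one_ne_zero

variable (K : Type*) [Field K] [Algebra k K] [Algebra (P2 k) K]
  [IsScalarTower k (P2 k) K] [IsFractionRing (P2 k) K] [Fact p.Prime] [CharP k p]

include K in
lemma fI_chart (hp : 2 ≤ p) {t : k} (ht : 1 + t ^ (2 * p) ≠ 0) :
    fI p t ∈ hilbChart k (gb k p) := by
  intro r
  obtain ⟨c, hc⟩ := fI_coord hp r
  refine ⟨fun i => evN t (c i), hc t, fun d hd => ?_⟩
  exact (fm p t).coord_unique K hp (fm_valid hp ht) (fI_le_J K hp ht hd) (fI_le_J K hp ht (hc t))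

lemma fI_eq (hp : 2 ≤ p) {t : k} (ht : 1 + t ^ (2 * p) ≠ 0) : fI p t = (fm p t).J K p := by
  refine le_antisymm (fI_le_J K hp ht) fun g hg => ?_
  obtain ⟨c, hc⟩ := (fI_chart K hp ht g).exists
  have := (fm p t).coord_unique K hp (fm_valid hp ht) (fI_le_J K hp ht hc) (d := 0)
    (by simpa using hg)
  simpa [this] using hc

lemma fI_mem [IsAlgClosed k] (hp : 2 ≤ p) {t : k} (ht : 1 + t ^ (2 * p) ≠ 0) :
    fI p t ∈ stratum k K (fI p (0 : k)) ∩ hilbChart k (gb k p) := by
  refine ⟨⟨?_, ?_, ?_⟩, fI_chart K hp ht⟩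
  · rw [fI_eq K hp ht]; exact VI_complete ((fm p t).iB K p (p * p)) _ _
  · rw [finrank_of_chart (fI_chart K hp ht), finrank_of_chart (fI_chart K hp (one_add_zero_pow' hp))]
  · exact (shape_fm K hp (one_add_zero_pow' hp)).equisingular (shape_fm K hp ht)

include K in
lemma fI_h (hp : 2 ≤ p) {t : k} (ht : 1 + t ^ (2 * p) ≠ 0) {c : Ix p → k}
    (hc : MvPolynomial.X 1 ^ p - ∑ i, c i • gb k p i ∈ fI p t) (i : Fin p) :
    c (ixH p hp i) = -(t ^ (p + 1) * (if (i : ℕ) = 1 then 1 else 0) +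
      t ^ (2 * p + 1) * (if (i : ℕ) = 0 then 1 else 0)) := by
  have hpp : 2 * p ≤ p * p := Nat.mul_le_mul_right p hp
  obtain ⟨W, hW⟩ : ∃ W : k[X], W = X ^ p + C (t ^ (p * p)) := ⟨_, rfl⟩
  obtain ⟨V, hV⟩ : ∃ V : k[X], V = (C (t ^ (p + 1)) * X + C (t ^ (2 * p + 1))) * W := ⟨_, rfl⟩
  have hVc : ∀ α, p ≤ α → V.coeff α = t ^ (p + 1) * (if α = p + 1 then 1 else 0) +
      t ^ (2 * p + 1) * (if α = p then 1 else 0) := by
    intro α hα
    rw [show V = C (t ^ (p + 1)) * X ^ (p + 1) + C (t ^ (2 * p + 1)) * X ^ p +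
      (C (t ^ (p + 1) * t ^ (p * p)) * X ^ 1 + C (t ^ (2 * p + 1) * t ^ (p * p)) * X ^ 0) by
        simp only [hV, hW, map_mul]; ring]
    simp only [coeff_add, coeff_C_mul, coeff_X_pow]
    rw [if_neg (show α ≠ 1 by omega), if_neg (show α ≠ 0 by omega)]
    simp
  have hs : Small p (-(C (X * W ^ p) + C V * X ^ (p - 1))) := by
    refine ⟨fun β hβ => ?_, fun β α hβ hα => ?_⟩
    · rw [coeff_neg, coeff_add, coeff_C, coeff_C_mul, coeff_X_pow, if_neg (by omega),
        if_neg (by omega)]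
      simp
    · rw [coeff_neg, coeff_add, coeff_C, coeff_C_mul, coeff_X_pow, coeff_neg, coeff_add,
        neg_eq_zero]
      have h1 : (if β = 0 then X * W ^ p else 0).coeff α = 0 := by
        split_ifs with h
        · subst h
          apply coeff_eq_zero_of_natDegree_lt
          have h2 : W.natDegree = p := hW ▸ natDegree_X_pow_add_C
          refine lt_of_le_of_lt (natDegree_mul_le.trans
            (add_le_add natDegree_X_le natDegree_pow_le)) ?_
          rw [Nat.sub_zero, mul_add] at hα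
          rw [h2]
          omega
        · simp
      have h2 : (V * if β = p - 1 then 1 else 0).coeff α = 0 := by
        split_ifs with h
        · subst h
          rw [show p + 1 - (p - 1) = 2 by omega] at hα
          rw [mul_one, hVc α (by omega), if_neg (by omega), if_neg (by omega)]
          simp
        · simp
      rw [h1, h2, add_zero]
  rw [(fm p t).coord_eq K hp (fm_valid hp ht) hs (fI_le_J K hp ht hc) (fI_le_J K hp ht (by
    convert fF_mem p t using 1
    simp only [hV, hW, fF, fW, map_add, map_mul, map_pow, map_neg, tp_X, tp_C, tx_X, tx_C]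
    ring))]
  change ((-(C (X * W ^ p) + C V * X ^ (p - 1))).coeff (p - 1)).coeff (p + i) = _
  rw [coeff_neg, coeff_add, coeff_C, coeff_C_mul, coeff_X_pow, if_neg (by omega), if_pos rfl,
    zero_add, mul_one, coeff_neg, hVc _ (by omega)]
  simp

theorem not_smooth_p [IsAlgClosed k] (hp : 2 ≤ p) :
    ¬ IsSmoothPoint k (gb k p) (stratum k K (fI p (0 : k)) ∩ hilbChart k (gb k p))
      ⟨fI p 0, fI_mem K hp (one_add_zero_pow' hp)⟩ := by
  set E := stratum k K (fI p (0 : k)) ∩ hilbChart k (gb k p) with hE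
  let T := {t : k // 1 + t ^ (2 * p) ≠ 0}
  let γ : T → E := fun t => ⟨fI p t.1, fI_mem K hp t.2⟩
  let res : (E → k) →ₐ[k] (T → k) := AlgHom.pi fun t => Pi.evalAlgHom k (fun _ : E => k) (γ t)
  let ew : Wn k (p + 1) →ₐ[k] (T → k) := AlgHom.pi fun t => evN t.1
  have hinf : Set.Infinite {t : k | 1 + t ^ (2 * p) ≠ 0} := by
    have h1 : (1 + X ^ (2 * p) : k[X]) ≠ 0 := by
      intro h
      apply one_add_zero_pow' (k := k) hp
      simpa using congr(eval 0 $h)
    have := (finite_setOfPred_isRoot h1).infinite_compl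
    convert this using 1
    ext t
    simp
  have hew : ∀ (P : Wn k (p + 1)) (Q : k[X]), (∀ t : T, evN t.1 P = Q.eval t.1) → P.1 = Q := by
    intro P Q h
    apply eq_of_infinite_eval_eq
    refine hinf.mono fun t ht => ?_
    simpa [evN] using h ⟨t, ht⟩
  have hinj : Function.Injective ew := by
    intro P Q h
    apply Subtype.ext
    apply hew
    intro t
    simpa [ew, evN] using congrFun h t
  have hle : coordRing k (gb k p) E ≤ ew.range.comap res := by
    apply Algebra.adjoin_le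
    rintro _ ⟨r, c, i, hc, rfl⟩
    obtain ⟨d, hd⟩ := fI_coord hp r
    refine ⟨d i, ?_⟩
    funext t
    have := ((fI_chart K hp t.2) r).unique (hd t.1) (hc (γ t))
    exact congrFun this i
  let ψ : coordRing k (gb k p) E →ₐ[k] Wn k (p + 1) :=
    (AlgEquiv.ofInjective ew hinj).symm.toAlgHom.comp
      ((res.comp (coordRing k (gb k p) E).val).codRestrict ew.range fun φ => hle φ.2)
  have hψ : ∀ (φ : coordRing k (gb k p) E) (t : T), evN t.1 (ψ φ) = φ.1 (γ t) := by
    intro φ t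
    have h1 : ew (ψ φ) = res φ.1 := by
      have := (AlgEquiv.ofInjective ew hinj).apply_symm_apply
        (((res.comp (coordRing k (gb k p) E).val).codRestrict ew.range fun φ => hle φ.2) φ)
      exact congr(($this).1)
    exact congrFun h1 t
  have hψ0 : ∀ φ : coordRing k (gb k p) E,
      (ψ φ).1.coeff 0 = φ.1 (γ ⟨0, one_add_zero_pow' hp⟩) := by
    intro φ
    rw [← hψ, coeff_zero_eq_eval_zero]
    simp [evN]
  choose cf hcf using fun (r : P2 k) (I : E) => (I.2.2 r).exists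
  let co : P2 k → Ix p → coordRing k (gb k p) E := fun r i =>
    ⟨fun I => cf r I i, Algebra.subset_adjoin ⟨r, cf r, i, hcf r, rfl⟩⟩
  refine not_isSmoothAt_Wn _ (show 0 < p by omega) ψ ?_
    (fun i => co (MvPolynomial.X 1 ^ p) (ixH p hp i))
    (co (MvPolynomial.X 0 ^ (p * p + p)) (ixS p hp)) ?_ ?_ ?_ ?_
  · intro φ hφ h0
    apply hφ
    rw [Ideal.mem_comap, Ideal.mem_bot]
    rw [hψ0] at h0
    exact h0
  · apply Subtype.ext
    funext I
    obtain ⟨q, hq⟩ := (shape_fm K hp (one_add_zero_pow' hp)).of_equisingular I.2.1.2.2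
    obtain ⟨P, hP, hI⟩ := gupper hp hq fun P => P.not_vertical K (hcf (MvPolynomial.X 1 ^ p) I)
    have h1 := P.relation K hp hP (hI (hcf (MvPolynomial.X 1 ^ p) I))
    rw [← P.coord_x K hp hP (hI (hcf (MvPolynomial.X 0 ^ (p * p + p)) I))] at h1
    simpa [co] using h1
  · rw [hew _ (-X ^ (2 * p + 1)) fun t => by
      rw [hψ]
      change cf (MvPolynomial.X 1 ^ p) (γ t) _ = _
      rw [fI_h K hp t.2 (hcf (MvPolynomial.X 1 ^ p) (γ t))]
      simp]
    simp
  · intro i
    rw [hψ0]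
    have h1 := fI_h K hp (one_add_zero_pow' hp)
      (hcf (MvPolynomial.X 1 ^ p) (γ ⟨0, one_add_zero_pow' hp⟩)) i
    exact h1.trans (by simp)
  · rw [hψ0]
    have h1 := (fm p 0).coord_x K hp (fm_valid hp (one_add_zero_pow' hp))
      (fI_le_J K hp (one_add_zero_pow' hp)
        (hcf (MvPolynomial.X 0 ^ (p * p + p)) (γ ⟨0, one_add_zero_pow' hp⟩)))
    have h0 : p ≠ 0 := by omega
    exact h1.trans (by simp [fm, h0])

end Pool.Agent.Work.MP_41a257_ag
end
end
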